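import Pool.Agent.Helper6K1.RegAut.Orbit

set_option autoImplicit false

/-! Weight spaces of abelian normal subgroups on an irreducible module. -/

namespace Pool.Agent.Helper6K1.RegAut

open Subgroup

/-- the hypotheses of the main theorem. -/
structure Hyp (p : ℕ) (k : Type*) (E : Type*) {Γ : Type*} [Group Γ] [Field k] [AddCommGroup E]
    [Module k E] [DistribMulAction Γ E] (X V : Subgroup Γ) : Prop where
  normal : X.Normal
  sol : Group.IsSolvable X
  comm : ∀ s ∈ V, ∀ t ∈ V, s * t = t * s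
  exp : ∀ t ∈ V, t ^ p = 1
  sup : X ⊔ V = ⊤
  cent : ∀ x ∈ X, (∀ v ∈ V, v * x * v⁻¹ = x) → x = 1
  faith : ∀ g : Γ, (∀ e : E, g • e = e) → g = 1
  irr : ∀ S : Submodule k E, (∀ g : Γ, ∀ e ∈ S, g • e ∈ S) → S = ⊥ ∨ S = ⊤
  fix : ∀ e : E, (∀ v ∈ V, v • e = e) → e = 0

/-- `W` is minimal among the subgroups of `V` without nonzero fixed vector. -/
structure MinW {Γ : Type*} [Group Γ] (E : Type*) [AddCommGroup E] [DistribMulAction Γ E]
    (V W : Subgroup Γ) : Prop where
  le : W ≤ V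
  fix : ∀ e : E, (∀ w ∈ W, w • e = e) → e = 0
  min : ∀ W' : Subgroup Γ, W' < W → ∃ e : E, e ≠ 0 ∧ ∀ w ∈ W', w • e = e

section

variable {Γ : Type*} [Group Γ] [Finite Γ] {k : Type*} [Field k] {E : Type*} [AddCommGroup E]
  [Module k E] [DistribMulAction Γ E] [SMulCommClass Γ k E] {p : ℕ} [Fact p.Prime]
  {X V W : Subgroup Γ}

theorem exists_minW (h : Hyp p k E X V) : ∃ W : Subgroup Γ, MinW E V W := by
  classical
  let P : Subgroup Γ → Prop := fun W => W ≤ V ∧ ∀ e : E, (∀ w ∈ W, w • e = e) → e = 0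
  have hP : ∃ W, P W := ⟨V, le_rfl, h.fix⟩
  obtain ⟨W, hW, hmin⟩ := (wellFounded_lt (α := Subgroup Γ)).has_min {W | P W} hP
  refine ⟨W, hW.1, hW.2, fun W' hW' => ?_⟩
  by_contra hcon
  push Not at hcon
  refine hmin W' ⟨hW'.le.trans hW.1, fun e he => ?_⟩ hW'
  by_contra hne
  obtain ⟨w, hw, hw2⟩ := hcon e hne
  exact hw2 (he w hw)

/-- `p` does not divide the order of `X`. -/
theorem Hyp.not_dvd (h : Hyp p k E X V) : ¬ p ∣ Nat.card X := by
  intro hd
  have hc : ¬ p ∣ Nat.card ({x : Γ | x ∈ X ∧ x ≠ 1} : Set Γ) := by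
    intro hd2
    have h1 : Nat.card X = Nat.card ({x : Γ | x ∈ X ∧ x ≠ 1} : Set Γ) + 1 := by
      have h2 : (X : Set Γ) = insert 1 {x : Γ | x ∈ X ∧ x ≠ 1} := by
        ext x
        simp only [SetLike.mem_coe, Set.mem_insert_iff, Set.mem_setOf_eq]
        constructor
        · intro hx
          by_cases hx1 : x = 1
          · exact Or.inl hx1
          · exact Or.inr ⟨hx, hx1⟩
        · rintro (rfl | hx)
          · exact X.one_mem
          · exact hx.1
      have h3 := Set.ncard_insert_of_notMem (a := (1 : Γ)) (s := {x : Γ | x ∈ X ∧ x ≠ 1})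
        (by simp) (Set.toFinite _)
      rw [← h2] at h3
      exact h3
    rw [h1] at hd
    have h2 := (Nat.dvd_add_right hd2).1 hd
    exact (Fact.out : p.Prime).one_lt.ne' (Nat.dvd_one.1 h2)
  obtain ⟨a, ha, hfix⟩ := exists_fixed_conj V h.exp {x : Γ | x ∈ X ∧ x ≠ 1} (by
    intro t _ a ha
    refine ⟨h.normal.conj_mem a ha.1 t, fun h1 => ha.2 ?_⟩
    have h2 : a = t⁻¹ * (t * a * t⁻¹) * t := by group
    rw [h2, h1]
    group) hc
  exact ha.2 (h.cent a ha.1 hfix)

theorem Hyp.exists_mul (h : Hyp p k E X V) (g : Γ) : ∃ v ∈ V, ∃ x ∈ X, g = v * x := by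
  have hX := h.normal
  have h1 : g ∈ V ⊔ X := by rw [sup_comm, h.sup]; exact Subgroup.mem_top g
  rw [Subgroup.mem_sup_of_normal_right] at h1
  obtain ⟨v, hv, x, hx, hvx⟩ := h1
  exact ⟨v, hv, x, hx, hvx.symm⟩

/-- a normal subgroup with a nonzero fixed vector is trivial. -/
theorem Hyp.eq_one_of_fixed (h : Hyp p k E X V) (Z : Subgroup Γ) [hZ : Z.Normal] (e : E)
    (he : e ≠ 0) (hfix : ∀ z ∈ Z, z • e = e) : ∀ z ∈ Z, z = 1 := by
  let S : Submodule k E :=
    { carrier := {f | ∀ z ∈ Z, z • f = f}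
      add_mem' := fun {a b} ha hb z hz => by rw [smul_add, ha z hz, hb z hz]
      zero_mem' := fun z _ => smul_zero z
      smul_mem' := fun c a ha z hz => by rw [smul_comm, ha z hz] }
  have hinv : ∀ g : Γ, ∀ f ∈ S, g • f ∈ S := by
    intro g f hf z hz
    have h1 : z • g • f = g • (g⁻¹ * z * g) • f := by
      simp only [smul_smul]
      congr 1
      group
    have h2 : g⁻¹ * z * g ∈ Z := by simpa using hZ.conj_mem z hz g⁻¹
    rw [h1, hf _ h2]
  rcases h.irr S hinv with h0 | h0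
  · exfalso
    have h1 : e ∈ S := hfix
    rw [h0, Submodule.mem_bot] at h1
    exact he h1
  · intro z hz
    refine h.faith z (fun f => ?_)
    have h1 : f ∈ S := by rw [h0]; exact Submodule.mem_top
    exact h1 z hz

/-- weight spaces. -/
def Esp (k : Type*) (E : Type*) [Field k] [AddCommGroup E]
    [Module k E] [DistribMulAction Γ E] [SMulCommClass Γ k E] (N : Subgroup Γ) (lam : N → k) :
    Submodule k E where
  carrier := {e | ∀ n : N, (n : Γ) • e = lam n • e}
  add_mem' := fun {a b} ha hb n => by rw [smul_add, ha n, hb n, smul_add]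
  zero_mem' := fun n => by rw [smul_zero, smul_zero]
  smul_mem' := fun c a ha n => by rw [smul_comm, ha n, smul_comm]

theorem mem_Esp {N : Subgroup Γ} {lam : N → k} {e : E} :
    e ∈ Esp k E N lam ↔ ∀ n : N, (n : Γ) • e = lam n • e := Iff.rfl

theorem Esp_indep (N : Subgroup Γ) (hN : ∀ a ∈ N, ∀ b ∈ N, a * b = b * a) :
    iSupIndep (fun lam : N → k => Esp k E N lam) := by
  let f : N → Module.End k E := fun n => DistribMulAction.toLinearMap k E (n : Γ)
  have hcomm : ∀ i j, Commute (f i) (f j) := by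
    intro i j
    ext e
    show (i : Γ) • (j : Γ) • e = (j : Γ) • (i : Γ) • e
    rw [smul_smul, smul_smul, hN i i.2 j j.2]
  have h1 := Module.End.independent_iInf_maxGenEigenspace_of_forall_mapsTo f
    (fun i j φ => Module.End.mapsTo_maxGenEigenspace_of_comm (hcomm j i) φ)
  refine h1.mono (fun lam => ?_)
  refine le_iInf (fun n => ?_)
  refine le_trans ?_ Module.End.eigenspace_le_maxGenEigenspace
  intro e he
  rw [Module.End.mem_eigenspace_iff]
  exact he n

end

section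

variable {Γ : Type*} [Group Γ] {k : Type*} [Field k] {E : Type*} [AddCommGroup E]
  [Module k E] [DistribMulAction Γ E] [SMulCommClass Γ k E] 

/-- a minimal nonzero submodule invariant under a set. -/
theorem exists_minimal_inv [FiniteDimensional k E] [Nontrivial E] (T : Set Γ) :
    ∃ S : Submodule k E, S ≠ ⊥ ∧ (∀ g ∈ T, ∀ e ∈ S, g • e ∈ S) ∧
      ∀ S' : Submodule k E, S' ≤ S → (∀ g ∈ T, ∀ e ∈ S', g • e ∈ S') → S' = ⊥ ∨ S' = S := by
  obtain ⟨S, hS, hmin⟩ := (wellFounded_lt (α := Submodule k E)).has_min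
    {S : Submodule k E | S ≠ ⊥ ∧ ∀ g ∈ T, ∀ e ∈ S, g • e ∈ S}
    ⟨⊤, top_ne_bot, fun _ _ _ _ => Submodule.mem_top⟩
  refine ⟨S, hS.1, hS.2, fun S' hle hinv => ?_⟩
  by_contra hcon
  push Not at hcon
  exact hmin S' ⟨hcon.1, hinv⟩ (lt_of_le_of_ne hle hcon.2)

theorem exists_weight [IsAlgClosed k] [FiniteDimensional k E] [Nontrivial E] (N : Subgroup Γ)
    (hN : ∀ a ∈ N, ∀ b ∈ N, a * b = b * a) : ∃ lam : N → k, Esp k E N lam ≠ ⊥ := by
  obtain ⟨S, hS, hinv, hmin⟩ := exists_minimal_inv (k := k) (E := E) (N : Set Γ)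
  have hnt : Nontrivial S := (Submodule.nontrivial_iff_ne_bot).2 hS
  have h1 : ∀ n : N, ∃ c : k, ∀ e ∈ S, (n : Γ) • e = c • e := by
    intro n
    let f : Module.End k S := (DistribMulAction.toLinearMap k E (n : Γ)).restrict
      (fun e he => hinv n n.2 e he)
    obtain ⟨c, hc⟩ := Module.End.exists_eigenvalue f
    obtain ⟨e, he⟩ := hc.exists_hasEigenvector
    have he1 : (n : Γ) • (e : E) = c • (e : E) := congrArg Subtype.val he.apply_eq_smul
    have he0 : (e : E) ≠ 0 := fun h => he.2 (Subtype.ext h)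
    let S' : Submodule k E :=
      { carrier := {f | f ∈ S ∧ (n : Γ) • f = c • f}
        add_mem' := fun {a b} ha hb => ⟨S.add_mem ha.1 hb.1, by
          rw [smul_add, ha.2, hb.2, smul_add]⟩
        zero_mem' := ⟨S.zero_mem, by rw [smul_zero, smul_zero]⟩
        smul_mem' := fun d a ha => ⟨S.smul_mem d ha.1, by rw [smul_comm, ha.2, smul_comm]⟩ }
    rcases hmin S' (fun f hf => hf.1) (fun m hm f hf => ⟨hinv m hm f hf.1, by
      rw [smul_smul, hN n n.2 m hm, ← smul_smul, hf.2, smul_comm]⟩) with h0 | h0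
    · exfalso
      have h2 : (e : E) ∈ S' := ⟨e.2, he1⟩
      rw [h0, Submodule.mem_bot] at h2
      exact he0 h2
    · refine ⟨c, fun f hf => ?_⟩
      rw [← h0] at hf
      exact hf.2
  choose lam hlam using h1
  refine ⟨lam, fun h0 => hS ?_⟩
  rw [eq_bot_iff, ← h0]
  intro e he n
  exact hlam n e he

end

end Pool.Agent.Helper6K1.RegAut
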