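import Pool.Agent.Helper6K1.RegAut.Abel

set_option autoImplicit false

/-! Abelian normal subgroups are centralised by a minimal fixed-point-free subgroup. -/

namespace Pool.Agent.Helper6K1.RegAut

open Subgroup
open scoped Pointwise

section

variable {Γ : Type*} [Group Γ] {k : Type*} [Field k] {E : Type*} [AddCommGroup E]
  [Module k E] [DistribMulAction Γ E] [SMulCommClass Γ k E]

theorem mem_smul_iff (g : Γ) (S : Submodule k E) (f : E) : f ∈ g • S ↔ g⁻¹ • f ∈ S := by
  rw [Submodule.mem_smul_pointwise_iff_exists]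
  constructor
  · rintro ⟨s, hs, rfl⟩
    rwa [inv_smul_smul]
  · intro h
    exact ⟨_, h, smul_inv_smul g f⟩

/-- conjugate weight -/
def conjW (N : Subgroup Γ) [hN : N.Normal] (lam : N → k) (g : Γ) : N → k :=
  fun n => lam ⟨g⁻¹ * n * g, by simpa using hN.conj_mem n n.2 g⁻¹⟩

theorem smul_Esp [Finite Γ] (N : Subgroup Γ) [hN : N.Normal] (lam : N → k) (g : Γ) :
    g • Esp k E N lam = Esp k E N (conjW N lam g) := by
  ext f
  rw [mem_smul_iff, mem_Esp, mem_Esp]
  constructor
  · intro h n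
    have h1 := h ⟨g⁻¹ * n * g, by simpa using hN.conj_mem n n.2 g⁻¹⟩
    have h2 := congrArg (fun e => g • e) h1
    simp only [smul_smul] at h2
    rw [smul_comm, smul_inv_smul] at h2
    have h3 : g * (g⁻¹ * (n : Γ) * g * g⁻¹) = n := by group
    rw [h3] at h2
    exact h2
  · intro h n
    have h1 := h ⟨g * n * g⁻¹, hN.conj_mem n n.2 g⟩
    have h2 := congrArg (fun e => g⁻¹ • e) h1
    simp only [smul_smul] at h2
    rw [smul_comm] at h2
    have h3 : g⁻¹ * (g * (n : Γ) * g⁻¹) = n * g⁻¹ := by group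
    rw [h3, mul_smul] at h2
    rw [h2]
    congr 1
    simp only [conjW]
    congr 1
    ext
    simp [mul_assoc]

/-- the cardinality of a group of exponent `p` is invertible. -/
theorem card_ne_zero' [Finite Γ] {p : ℕ} [Fact p.Prime] (hpk : (p : k) ≠ 0) (T : Subgroup Γ)
    (hT : ∀ t ∈ T, t ^ p = 1) : (Nat.card T : k) ≠ 0 := by
  have hp : IsPGroup p T := isPGroup_of_pow fun t => Subtype.ext (by
    rw [Subgroup.coe_pow]; exact hT t t.2)
  obtain ⟨n, hn⟩ := IsPGroup.iff_card.1 hp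
  rw [hn, Nat.cast_pow]
  exact pow_ne_zero n hpk

end

section

variable {Γ : Type*} [Group Γ] [Finite Γ] {k : Type*} [Field k] {E : Type*} [AddCommGroup E]
  [Module k E] [DistribMulAction Γ E] [SMulCommClass Γ k E] {p : ℕ} [Fact p.Prime]
  {X V W : Subgroup Γ}

theorem Hyp.eq_top (h : Hyp p k E X V) (S : Submodule k E) (hS : S ≠ ⊥) (P : Submodule k E)
    (hP : ∀ g : Γ, ∀ f ∈ g • S, f ∈ P) : P = ⊤ := by
  have h1 : (⨆ g : Γ, g • S) = ⊤ := by
    rcases h.irr (⨆ g : Γ, g • S) (by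
      intro g e he
      have h2 := Submodule.smul_mem_pointwise_smul e g _ he
      rw [Submodule.smul_iSup'] at h2
      refine (iSup_le (fun i => ?_) : (⨆ i : Γ, g • i • S) ≤ ⨆ g : Γ, g • S) h2
      rw [smul_smul]
      exact le_iSup (fun g : Γ => g • S) (g * i)) with h0 | h0
    · exfalso
      apply hS
      rw [eq_bot_iff, ← h0]
      have h3 := le_iSup (fun g : Γ => g • S) 1
      simpa using h3
    · exact h0
  rw [eq_top_iff, ← h1]
  exact iSup_le (fun g f hf => hP g f hf)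

theorem Hyp.no_q (h : Hyp p k E X V) [IsAlgClosed k] [FiniteDimensional k E] [Nontrivial E]
    {q : ℕ} [Fact q.Prime] [CharP k q] (N : Subgroup Γ)
    [hNn : N.Normal] (hN : ∀ a ∈ N, ∀ b ∈ N, a * b = b * a) (n : Γ) (hn : n ∈ N)
    (hnq : n ^ q = 1) : n = 1 := by
  obtain ⟨lam, hlam⟩ := exists_weight (k := k) (E := E) N hN
  let P : Submodule k E :=
    { carrier := {f | n • f = f}
      add_mem' := fun {a b} ha hb => by
        show n • (a + b) = a + b
        rw [smul_add, show n • a = a from ha, show n • b = b from hb]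
      zero_mem' := smul_zero n
      smul_mem' := fun c a ha => by
        show n • c • a = c • a
        rw [smul_comm, show n • a = a from ha] }
  have hP : P = ⊤ := by
    refine h.eq_top _ hlam P (fun g f hf => ?_)
    rw [smul_Esp] at hf
    show n • f = f
    by_cases hf0 : f = 0
    · rw [hf0, smul_zero]
    have h1 := hf ⟨n, hn⟩
    have h2 : ∀ m : ℕ, n ^ m • f = (conjW N lam g ⟨n, hn⟩) ^ m • f := by
      intro m
      induction m with
      | zero => simp
      | succ m ih =>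
        rw [pow_succ, mul_smul, h1, smul_comm, ih, smul_smul, pow_succ']
    have h3 := h2 q
    rw [hnq, one_smul] at h3
    have h4 : ((conjW N lam g ⟨n, hn⟩) ^ q - 1) • f = 0 := by
      rw [sub_smul, one_smul, ← h3, sub_self]
    rcases smul_eq_zero.1 h4 with h5 | h5
    · have h6 : (conjW N lam g ⟨n, hn⟩ - 1) ^ q = 0 := by
        rw [sub_pow_char, one_pow, h5]
      have h7 := pow_eq_zero_iff (Fact.out : q.Prime).ne_zero |>.1 h6
      rw [sub_eq_zero] at h7
      rw [h7, one_smul] at h1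
      exact h1
    · exact absurd h5 hf0
  refine h.faith n (fun e => ?_)
  have h1 : e ∈ P := by rw [hP]; exact Submodule.mem_top
  exact h1

theorem sum_fixed (T : Subgroup Γ) [Fintype T] (f : E) :
    ∀ t ∈ T, t • (∑ s : T, (s : Γ) • f) = ∑ s : T, (s : Γ) • f := by
  intro t ht
  rw [Finset.smul_sum]
  refine Fintype.sum_equiv (Equiv.mulLeft ⟨t, ht⟩) _ _ (fun s => ?_)
  simp [mul_smul]

theorem Hyp.abelian_central (h : Hyp p k E X V) [IsAlgClosed k] [FiniteDimensional k E]
    [Nontrivial E] (hW : MinW E V W) (hpk : (p : k) ≠ 0)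
    (N : Subgroup Γ) [hNn : N.Normal] (hN : ∀ a ∈ N, ∀ b ∈ N, a * b = b * a) :
    ∀ w ∈ W, ∀ n ∈ N, w * n * w⁻¹ = n := by
  classical
  obtain ⟨lam, hlam⟩ := exists_weight (k := k) (E := E) N hN
  obtain ⟨S₀, hS₀⟩ : ∃ S, S = Esp k E N lam := ⟨_, rfl⟩
  rw [← hS₀] at hlam
  have hX := h.normal
  have hWc : ∀ s ∈ W, ∀ t ∈ W, s * t = t * s := fun s hs t ht => h.comm s (hW.le hs) t (hW.le ht)
  have hWp : ∀ t ∈ W, t ^ p = 1 := fun t ht => h.exp t (hW.le ht)
  obtain ⟨x, hx, hreg⟩ := exists_regular_orbit (p := p) X W h.sol hWc hWp h.not_dvd S₀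
  obtain ⟨W₀, hW₀⟩ : ∃ W₀ : Subgroup Γ, W₀ = W ⊓ MulAction.stabilizer Γ (x • S₀) := ⟨_, rfl⟩
  have hW₀le : W₀ ≤ W := by rw [hW₀]; exact inf_le_left
  have hW₀st : ∀ w ∈ W₀, w • x • S₀ = x • S₀ := fun w hw => by
    rw [hW₀] at hw
    exact (Subgroup.mem_inf.1 hw).2
  have hW₀mem : ∀ w ∈ W, w • x • S₀ = x • S₀ → w ∈ W₀ := fun w hw hw2 => by
    rw [hW₀]
    exact Subgroup.mem_inf.2 ⟨hw, hw2⟩
  have hVW₀ : ∀ v ∈ V, ∀ w ∈ W₀, w * v = v * w := fun v hv w hw =>
    h.comm w (hW.le (hW₀le hw)) v hv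
  have hW₀p : ∀ t ∈ W₀, t ^ p = 1 := fun t ht => hWp t (hW₀le ht)
  have hfixX : ∀ w ∈ W₀, ∀ z ∈ X, w • z • S₀ = z • S₀ := fun w hw =>
    hreg w (hW₀le hw) (hW₀st w hw)
  have hfixg : ∀ w ∈ W₀, ∀ g : Γ, w • g • S₀ = g • S₀ := by
    intro w hw g
    obtain ⟨v, hv, z, hz, rfl⟩ := h.exists_mul g
    rw [mul_smul, ← mul_smul w v, hVW₀ v hv w hw, mul_smul, hfixX w hw z hz]
  -- no fixed vectors on the first space
  have h1 : ∀ f ∈ x • S₀, (∀ w ∈ W₀, w • f = f) → f = 0 := by
    intro f hf hfix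
    have : Fintype W := Fintype.ofFinite _
    have hs0 : ∑ s : W, (s : Γ) • f = 0 := hW.fix _ (sum_fixed W f)
    rw [← Finset.sum_filter_add_sum_filter_not Finset.univ (fun s : W => (s : Γ) ∈ W₀)] at hs0
    have hs1 : ∑ s ∈ Finset.univ.filter (fun s : W => (s : Γ) ∈ W₀), (s : Γ) • f
        = ((Finset.univ.filter (fun s : W => (s : Γ) ∈ W₀)).card : k) • f := by
      rw [Finset.sum_congr rfl (fun (s : W) hs => hfix (s : Γ) (Finset.mem_filter.1 hs).2),
        Finset.sum_const, Nat.cast_smul_eq_nsmul]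
    have hcard : (Finset.univ.filter (fun s : W => (s : Γ) ∈ W₀)).card = Nat.card W₀ := by
      rw [← Fintype.card_subtype, ← Nat.card_eq_fintype_card]
      refine Nat.card_congr
        { toFun := fun s => ⟨s.1.1, s.2⟩
          invFun := fun s => ⟨⟨s.1, hW₀le s.2⟩, s.2⟩
          left_inv := fun s => by simp
          right_inv := fun s => by simp }
    rw [hS₀, smul_Esp] at hf hW₀mem
    obtain ⟨mu, hmu⟩ : ∃ mu, mu = conjW N lam x := ⟨_, rfl⟩
    rw [← hmu] at hf hW₀mem
    have hs2 : ∑ s ∈ Finset.univ.filter (fun s : W => (s : Γ) ∉ W₀), (s : Γ) • f ∈ ⨆ (j) (_ : j ≠ mu), Esp k E N j := by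
      refine Submodule.sum_mem _ (fun s hs => ?_)
      have hs' := (Finset.mem_filter.1 hs).2
      have h3 : (s : Γ) • f ∈ Esp k E N (conjW N mu s) := by
        rw [← smul_Esp]
        exact Submodule.smul_mem_pointwise_smul f _ _ hf
      have h4 : conjW N mu s ≠ mu := by
        intro h5
        apply hs'
        apply hW₀mem s s.2
        rw [smul_Esp, h5]
      exact Submodule.mem_iSup_of_mem _ (Submodule.mem_iSup_of_mem h4 h3)
    have hind := Esp_indep (k := k) (E := E) N hN mu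
    rw [hs1, hcard] at hs0
    have h5 : (Nat.card W₀ : k) • f ∈ ⨆ (j) (_ : j ≠ mu), Esp k E N j := by
      have h6 : (Nat.card W₀ : k) • f = - ∑ s ∈ Finset.univ.filter (fun s : W => (s : Γ) ∉ W₀), (s : Γ) • f :=
        eq_neg_of_add_eq_zero_left hs0
      rw [h6]
      exact Submodule.neg_mem _ hs2
    have h7 := Submodule.disjoint_def.1 hind _ (Submodule.smul_mem _ _ hf) h5
    exact (smul_eq_zero.1 h7).resolve_left (card_ne_zero' hpk W₀ hW₀p)
  have h2 : ∀ x' ∈ X, ∀ f ∈ x' • S₀, (∀ w ∈ W₀, w • f = f) → f = 0 := by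
    intro x' hx' f hf hfix
    obtain ⟨y, hy⟩ : ∃ y, y = x' * x⁻¹ := ⟨_, rfl⟩
    have hyX : y ∈ X := by rw [hy]; exact mul_mem hx' (inv_mem hx)
    have hyx : y • x • S₀ = x' • S₀ := by
      rw [smul_smul, hy]
      congr 1
      group
    obtain ⟨Q, hQ⟩ : ∃ Q : Subgroup Γ, Q = X ⊓ MulAction.stabilizer Γ (x • S₀) := ⟨_, rfl⟩
    have hQX : Q ≤ X := by rw [hQ]; exact inf_le_left
    obtain ⟨r, hr, hrfix⟩ := exists_fixed_coset (p := p) W₀ hW₀p Q (by
      intro t ht r hr
      rw [hQ] at hr ⊢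
      obtain ⟨hr1, hr2⟩ := Subgroup.mem_inf.1 hr
      have ht2 : t ∈ MulAction.stabilizer Γ (x • S₀) := hW₀st t ht
      exact Subgroup.mem_inf.2 ⟨hX.conj_mem r hr1 t, mul_mem (mul_mem ht2 hr2) (inv_mem ht2)⟩)
      (fun hd => h.not_dvd (hd.trans (Subgroup.card_dvd_of_le hQX))) y (by
      intro t ht
      rw [hQ]
      refine Subgroup.mem_inf.2 ⟨mul_mem (inv_mem hyX) (hX.conj_mem y hyX t), ?_⟩
      rw [MulAction.mem_stabilizer_iff]
      have ht2 : t⁻¹ • x • S₀ = x • S₀ := hW₀st _ (inv_mem ht)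
      rw [mul_smul, mul_smul _ t⁻¹, ht2, mul_smul t y, hyx, hfixX t ht x' hx', ← hyx,
        inv_smul_smul])
    have hz : (y * r) • x • S₀ = x' • S₀ := by
      rw [hQ] at hr
      have hr2 : r • x • S₀ = x • S₀ := (Subgroup.mem_inf.1 hr).2
      rw [mul_smul, hr2, hyx]
    rw [← hz, mem_smul_iff] at hf
    have h3 := h1 _ hf (by
      intro w hw
      rw [smul_smul]
      have h4 : w * (y * r)⁻¹ = (y * r)⁻¹ * w := by
        have h5 := hrfix w hw
        have h6 : w * (y * r) = y * r * w := mul_inv_eq_iff_eq_mul.1 h5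
        rw [eq_inv_mul_iff_mul_eq, ← mul_assoc, ← h6, mul_inv_cancel_right]
      rw [h4, mul_smul, hfix w hw])
    rw [smul_eq_iff_eq_inv_smul, smul_zero] at h3
    exact h3
  have h3 : ∀ g : Γ, ∀ f ∈ g • S₀, (∀ w ∈ W₀, w • f = f) → f = 0 := by
    intro g f hf hfix
    obtain ⟨v, hv, z, hz, rfl⟩ := h.exists_mul g
    rw [mul_smul, mem_smul_iff] at hf
    have h4 := h2 z hz _ hf (by
      intro w hw
      rw [smul_smul, hVW₀ _ (inv_mem hv) w hw, mul_smul, hfix w hw])
    rw [smul_eq_iff_eq_inv_smul, smul_zero] at h4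
    exact h4
  have : Fintype W₀ := Fintype.ofFinite _
  have h4 : ∀ e : E, (∀ w ∈ W₀, w • e = e) → e = 0 := by
    let P : Submodule k E :=
      { carrier := {f | ∑ s : W₀, (s : Γ) • f = 0}
        add_mem' := fun {a b} ha hb => by
          show ∑ s : W₀, (s : Γ) • (a + b) = 0
          simp only [smul_add, Finset.sum_add_distrib]
          rw [show ∑ s : W₀, (s : Γ) • a = 0 from ha, show ∑ s : W₀, (s : Γ) • b = 0 from hb,
            add_zero]
        zero_mem' := by
          show ∑ s : W₀, (s : Γ) • (0 : E) = 0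
          simp
        smul_mem' := fun c a ha => by
          show ∑ s : W₀, (s : Γ) • (c • a) = 0
          simp only [smul_comm _ c a]
          rw [← Finset.smul_sum, show ∑ s : W₀, (s : Γ) • a = 0 from ha, smul_zero] }
    have hP : P = ⊤ := by
      refine h.eq_top S₀ hlam P (fun g f hf => ?_)
      refine h3 g _ ?_ (sum_fixed W₀ f)
      refine Submodule.sum_mem _ (fun s _ => ?_)
      have h5 := Submodule.smul_mem_pointwise_smul f (s : Γ) _ hf
      rwa [hfixg s s.2 g] at h5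
    intro e he
    have h5 : e ∈ P := by rw [hP]; exact Submodule.mem_top
    have h6 : ∑ s : W₀, (s : Γ) • e = 0 := h5
    rw [Finset.sum_congr rfl (fun (s : W₀) _ => he (s : Γ) s.2), Finset.sum_const, Finset.card_univ,
      ← Nat.card_eq_fintype_card, ← Nat.cast_smul_eq_nsmul k] at h6
    exact (smul_eq_zero.1 h6).resolve_left (card_ne_zero' hpk W₀ hW₀p)
  have hWW : W₀ = W := by
    by_contra hne
    obtain ⟨e, he0, he⟩ := hW.min W₀ (lt_of_le_of_ne hW₀le hne)
    exact he0 (h4 e he)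
  rw [hWW] at hfixg
  intro w hw n hn
  have hw' : ∀ g : Γ, ∀ f ∈ g • S₀, (w * n * w⁻¹) • f = n • f := by
    intro g f hf
    have h5 : w⁻¹ • f ∈ g • S₀ := by
      have h6 := Submodule.smul_mem_pointwise_smul f w⁻¹ _ hf
      rwa [hfixg _ (inv_mem hw) g] at h6
    rw [hS₀, smul_Esp] at hf h5
    have h7 := hf ⟨n, hn⟩
    have h8 := h5 ⟨n, hn⟩
    simp only at h7 h8
    rw [mul_smul, mul_smul, h8, h7, smul_comm, smul_inv_smul]
  let P : Submodule k E :=
      { carrier := {f | (w * n * w⁻¹) • f = n • f}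
        add_mem' := fun {a b} ha hb => by
          show (w * n * w⁻¹) • (a + b) = n • (a + b)
          rw [smul_add, smul_add, show (w * n * w⁻¹) • a = n • a from ha,
            show (w * n * w⁻¹) • b = n • b from hb]
        zero_mem' := by
          show (w * n * w⁻¹) • (0 : E) = n • (0 : E)
          simp
        smul_mem' := fun c a ha => by
          show (w * n * w⁻¹) • (c • a) = n • (c • a)
          rw [smul_comm (w * n * w⁻¹) c a, show (w * n * w⁻¹) • a = n • a from ha,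
            smul_comm n c a] }
  have hP : P = ⊤ := h.eq_top S₀ hlam P (fun g f hf => hw' g f hf)
  have h5 := h.faith (n⁻¹ * (w * n * w⁻¹)) (fun e => by
    have h6 : e ∈ P := by rw [hP]; exact Submodule.mem_top
    have h7 : (w * n * w⁻¹) • e = n • e := h6
    rw [mul_smul, h7, inv_smul_smul])
  exact (inv_mul_eq_one.1 h5).symm

end

end Pool.Agent.Helper6K1.RegAut
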