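import Mathlib

set_option autoImplicit false

/-! Basic facts on coprime actions of groups of exponent `p`. -/

namespace Pool.Agent.Helper6K1.RegAut

open Subgroup

/-- fixed points of a `p`-group acting on a subset of size prime to `p`. -/
theorem exists_fixed {T α : Type*} [Group T] [Finite T] [MulAction T α] {p : ℕ} [Fact p.Prime]
    (hT : IsPGroup p T) (O : Set α) (hO : ∀ t : T, ∀ a ∈ O, t • a ∈ O)
    (hc : ¬ p ∣ Nat.card O) : ∃ a ∈ O, ∀ t : T, t • a = a := by
  let _ : MulAction T O :=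
    { smul := fun t a => ⟨t • (a : α), hO t a a.2⟩
      one_smul := fun a => Subtype.ext (one_smul T (a : α))
      mul_smul := fun s t a => Subtype.ext (mul_smul s t (a : α)) }
  obtain ⟨a, ha⟩ := hT.nonempty_fixed_point_of_prime_not_dvd_card O hc
  exact ⟨a, a.2, fun t => congrArg Subtype.val (ha t)⟩

theorem isPGroup_of_pow {T : Type*} [Group T] {p : ℕ} (h : ∀ t : T, t ^ p = 1) : IsPGroup p T :=
  fun t => ⟨1, by rw [pow_one]; exact h t⟩

theorem exists_fixed_conj {Γ : Type*} [Group Γ] [Finite Γ] {p : ℕ} [Fact p.Prime]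
    (T : Subgroup Γ) (hT : ∀ t ∈ T, t ^ p = 1) (O : Set Γ)
    (hO : ∀ t ∈ T, ∀ a ∈ O, t * a * t⁻¹ ∈ O) (hc : ¬ p ∣ Nat.card O) :
    ∃ a ∈ O, ∀ t ∈ T, t * a * t⁻¹ = a := by
  let _ : MulAction T O :=
    { smul := fun t a => ⟨(t : Γ) * a * (t : Γ)⁻¹, hO t t.2 a a.2⟩
      one_smul := fun a => Subtype.ext (by
        show ((1 : T) : Γ) * a * ((1 : T) : Γ)⁻¹ = a
        simp)
      mul_smul := fun s t a => Subtype.ext (by
        show ((s * t : T) : Γ) * a * ((s * t : T) : Γ)⁻¹ = (s : Γ) * ((t : Γ) * a * (t : Γ)⁻¹) * (s : Γ)⁻¹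
        simp [mul_assoc]) }
  have hp : IsPGroup p T := isPGroup_of_pow fun t => Subtype.ext (by
    rw [Subgroup.coe_pow]; exact hT t t.2)
  obtain ⟨a, ha⟩ := hp.nonempty_fixed_point_of_prime_not_dvd_card O hc
  exact ⟨a, a.2, fun t ht => congrArg Subtype.val (ha ⟨t, ht⟩)⟩

theorem exists_fixed_coset {Γ : Type*} [Group Γ] [Finite Γ] {p : ℕ} [Fact p.Prime]
    (T : Subgroup Γ) (hT : ∀ t ∈ T, t ^ p = 1) (Q : Subgroup Γ) (hQ : ∀ t ∈ T, ∀ q ∈ Q, t * q * t⁻¹ ∈ Q)
    (hc : ¬ p ∣ Nat.card Q) (y : Γ) (hy : ∀ t ∈ T, y⁻¹ * (t * y * t⁻¹) ∈ Q) :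
    ∃ q ∈ Q, ∀ t ∈ T, t * (y * q) * t⁻¹ = y * q := by
  let O : Set Γ := {a | y⁻¹ * a ∈ Q}
  have e : O ≃ Q :=
    { toFun := fun a => ⟨y⁻¹ * a.1, a.2⟩
      invFun := fun q => ⟨y * q.1, by show y⁻¹ * (y * q.1) ∈ Q; simp⟩
      left_inv := fun a => by simp
      right_inv := fun q => by simp }
  have hcO : ¬ p ∣ Nat.card O := by rwa [Nat.card_congr e]
  obtain ⟨a, ha, hfix⟩ := exists_fixed_conj T hT O (by
    intro t ht a ha
    show y⁻¹ * (t * a * t⁻¹) ∈ Q
    have h1 := Q.mul_mem (hy t ht) (hQ t ht _ ha)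
    have h2 : y⁻¹ * (t * y * t⁻¹) * (t * (y⁻¹ * a) * t⁻¹) = y⁻¹ * (t * a * t⁻¹) := by group
    rwa [h2] at h1) hcO
  refine ⟨y⁻¹ * a, ha, fun t ht => ?_⟩
  rw [mul_inv_cancel_left]
  exact hfix t ht

/-- An abelian group `T` acting coprimely on an abelian group `B` has an element of `B` whose
stabilizer acts trivially on `B`. -/
theorem exists_regular {B T : Type*} [CommGroup B] [Finite B] [Group T] [Finite T]
    (hcomm : ∀ s t : T, s * t = t * s) [MulDistribMulAction T B]
    (hco : (Nat.card T).Coprime (Nat.card B)) :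
    ∃ b : B, ∀ t : T, t • b = b → ∀ c : B, t • c = c := by
  classical
  obtain ⟨b, hb⟩ := Finite.exists_min (fun b : B => Nat.card (MulAction.stabilizer T b))
  refine ⟨b, fun w hw c => ?_⟩
  by_contra hc
  set S := MulAction.stabilizer T b with hS
  have : Fintype S := Fintype.ofFinite _
  -- the norm
  let N : B → B := fun x => ∏ s : S, (s : T) • x
  have hNmul : ∀ x y, N (x * y) = N x * N y := by
    intro x y
    simp only [N, smul_mul', Finset.prod_mul_distrib]
  have hNfix : ∀ s : S, ∀ x, (s : T) • N x = N x := by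
    intro s x
    simp only [N, Finset.smul_prod']
    refine Fintype.prod_equiv (Equiv.mulLeft s) _ _ (fun u => ?_)
    simp [mul_smul]
  have hNsmul : ∀ (v : T) x, N (v • x) = v • N x := by
    intro v x
    simp only [N, Finset.smul_prod']
    refine Finset.prod_congr rfl (fun u _ => ?_)
    rw [← mul_smul, ← mul_smul, hcomm]
  have hNpow : ∀ x, (∀ s : S, (s : T) • x = x) → N x = x ^ Nat.card S := by
    intro x hx
    simp only [N, hx, Finset.prod_const, Finset.card_univ, Nat.card_eq_fintype_card]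
  have hdvd : Nat.card S ∣ Nat.card T := Subgroup.card_subgroup_dvd_card S
  have hcoS : (Nat.card S).Coprime (Nat.card B) := Nat.Coprime.coprime_dvd_left hdvd hco
  have hinj : ∀ x y : B, x ^ Nat.card S = y ^ Nat.card S → x = y := by
    intro x y hxy
    have h1 : (x * y⁻¹) ^ Nat.card S = 1 := by
      rw [mul_pow, inv_pow, hxy, mul_inv_cancel]
    have h2 := orderOf_dvd_of_pow_eq_one h1
    have h3 := orderOf_dvd_natCard (x * y⁻¹)
    have h4 : orderOf (x * y⁻¹) = 1 := Nat.eq_one_of_dvd_coprimes hcoS h2 h3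
    rw [orderOf_eq_one_iff] at h4
    exact mul_inv_eq_one.1 h4
  let c1 : B := c ^ Nat.card S * (N c)⁻¹
  have hNinv : ∀ x, N x⁻¹ = (N x)⁻¹ := by
    intro x
    have : N x⁻¹ * N x = 1 := by
      rw [← hNmul, inv_mul_cancel]
      simp [N]
    exact eq_inv_of_mul_eq_one_left this
  have hNp : ∀ x (n : ℕ), N (x ^ n) = (N x) ^ n := by
    intro x n
    induction n with
    | zero => simp [N]
    | succ n ih => rw [pow_succ, hNmul, ih, pow_succ]
  have hc1 : N c1 = 1 := by
    simp only [c1]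
    rw [hNmul, hNinv, hNp, hNpow (N c) (fun s => hNfix s c), mul_inv_cancel]
  have hwS : w ∈ S := hw
  have hbS : ∀ s : S, (s : T) • b = b := fun s => s.2
  have hwc1 : w • c1 ≠ c1 := by
    intro h
    simp only [c1] at h
    rw [smul_mul', smul_inv', hNfix ⟨w, hwS⟩ c, mul_left_inj, smul_pow'] at h
    exact hc (hinj _ _ h)
  -- the new element
  have key : ∀ v : T, v • (b * c1) = b * c1 → v • b = b ∧ v • c1 = c1 := by
    intro v hv
    rw [smul_mul'] at hv
    have hvb : ∀ s : S, (s : T) • (v • b) = v • b := by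
      intro s
      rw [← mul_smul, hcomm, mul_smul, hbS]
    have h1 : N (v • b * v • c1) = N (b * c1) := by rw [hv]
    rw [hNmul, hNmul, hNsmul v c1, hc1, smul_one, mul_one, mul_one, hNpow _ hvb, hNpow _ hbS] at h1
    have h2 := hinj _ _ h1
    refine ⟨h2, ?_⟩
    rw [h2] at hv
    exact mul_left_cancel hv
  have hlt : MulAction.stabilizer T (b * c1) < S := by
    refine lt_of_le_of_ne (fun v hv => (key v hv).1) (fun h => ?_)
    have h1 : w ∈ MulAction.stabilizer T (b * c1) := by rw [h]; exact hwS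
    exact hwc1 (key w h1).2
  have h1 := hb (b * c1)
  have h2 : Nat.card (MulAction.stabilizer T (b * c1)) < Nat.card S := by
    have h3 := Set.ncard_lt_ncard (show ((MulAction.stabilizer T (b * c1) : Subgroup T) : Set T) ⊂ S from hlt)
      (Set.toFinite _)
    exact h3
  omega

end Pool.Agent.Helper6K1.RegAut
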