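import Pool.Agent.Helper6K1.RegAut.AbelTwo

set_option autoImplicit false

/-! The key step: a section of `X` on which `W` acts nontrivially gives a contradiction. -/

namespace Pool.Agent.Helper6K1.RegAut

open Subgroup
open scoped commutatorElement

section

variable {Γ : Type*} [Group Γ] {p : ℕ} 

/-- an element `d` of a `p'`-group such that `w` acts on `d` by a `w`-fixed element is fixed. -/
theorem coprime_step [Finite Γ] {X : Subgroup Γ} (hX : ¬ p ∣ Nat.card X) [hp : Fact p.Prime]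
    (w d : Γ) (hwp : w ^ p = 1)
    (hc : d⁻¹ * (w * d * w⁻¹) ∈ X)
    (hw : w * (d⁻¹ * (w * d * w⁻¹)) * w⁻¹ = d⁻¹ * (w * d * w⁻¹)) : w * d * w⁻¹ = d := by
  obtain ⟨c, hcd⟩ : ∃ c, c = d⁻¹ * (w * d * w⁻¹) := ⟨_, rfl⟩
  rw [← hcd] at hc hw
  have h0 : w * d * w⁻¹ = d * c := by rw [hcd]; group
  have h1 : ∀ n : ℕ, w ^ n * d * (w ^ n)⁻¹ = d * c ^ n := by
    intro n
    induction n with
    | zero => simp
    | succ n ih =>
      have h2 : w ^ (n + 1) * d * (w ^ (n + 1))⁻¹ = w * (w ^ n * d * (w ^ n)⁻¹) * w⁻¹ := by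
        rw [pow_succ']
        group
      have h3 : w * (d * c ^ n) * w⁻¹ = (w * d * w⁻¹) * (w * c * w⁻¹) ^ n := by
        rw [conj_pow]
        group
      rw [h2, ih, h3, hw, h0, pow_succ', mul_assoc]
  have h2 := h1 p
  rw [hwp] at h2
  have h3 : c ^ p = 1 := by simpa using h2
  have h4 : c = 1 := by
    have h5 : orderOf c ∣ p := orderOf_dvd_of_pow_eq_one h3
    have h6 : orderOf c ∣ Nat.card X := Subgroup.orderOf_dvd_natCard X hc
    rcases (Nat.dvd_prime hp.out).1 h5 with h7 | h7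
    · exact orderOf_eq_one_iff.1 h7
    · rw [h7] at h6
      exact absurd h6 hX
  rw [h0, h4, mul_one]

end

/-- existence of a chief-type section above `K`. -/
theorem exists_chief {Γ : Type*} [Group Γ] [Finite Γ] (X K : Subgroup Γ) [hX : X.Normal]
    [hK : K.Normal] (hsol : Group.IsSolvable X) (hKX : K < X) :
    ∃ D : Subgroup Γ, D.Normal ∧ K < D ∧ D ≤ X ∧ ⁅D, D⁆ ≤ K := by
  obtain ⟨D, hD, hmin⟩ := (wellFounded_lt (α := Subgroup Γ)).has_min
    {D : Subgroup Γ | D.Normal ∧ K < D ∧ D ≤ X} ⟨X, hX, hKX, le_rfl⟩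
  obtain ⟨hDn, hKD, hDX⟩ := hD
  refine ⟨D, hDn, hKD, hDX, ?_⟩
  by_contra hcon
  have h0 : (⁅D, D⁆ ⊔ K : Subgroup Γ) ≤ D := by
    refine sup_le ?_ hKD.le
    rw [commutator_le]
    intro a ha b hb
    exact mul_mem (mul_mem (mul_mem ha hb) (inv_mem ha)) (inv_mem hb)
  have h1 : (⁅D, D⁆ ⊔ K : Subgroup Γ) = D := by
    by_contra hne
    have hlt : K < ⁅D, D⁆ ⊔ K := by
      refine lt_of_le_of_ne le_sup_right (fun h => hcon ?_)
      rw [h]
      exact le_sup_left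
    exact hmin (⁅D, D⁆ ⊔ K) ⟨inferInstance, hlt, h0.trans hDX⟩ (lt_of_le_of_ne h0 hne)
  have h2 : ∀ n, (dser D n).map (QuotientGroup.mk' K) = D.map (QuotientGroup.mk' K) := by
    intro n
    induction n with
    | zero => rfl
    | succ n ih =>
      rw [dser, map_commutator, ih, ← map_commutator]
      conv_rhs => rw [← h1]
      rw [Subgroup.map_sup]
      have h3 : K.map (QuotientGroup.mk' K) = ⊥ := by
        rw [Subgroup.map_eq_bot_iff, QuotientGroup.ker_mk']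
      rw [h3, sup_bot_eq]
  have hsolD : Group.IsSolvable D := by
    have := hsol
    exact Group.isSolvable_of_isSolvable_injective (Subgroup.inclusion_injective hDX)
  obtain ⟨n, hn⟩ := hsolD
  have h3 := h2 n
  rw [dser_eq, hn, Subgroup.map_bot, Subgroup.map_bot] at h3
  have h4 := (Subgroup.map_eq_bot_iff _).1 h3.symm
  rw [QuotientGroup.ker_mk'] at h4
  exact absurd h4 (not_le_of_gt hKD)

section

variable {Γ : Type*} [Group Γ] [Finite Γ] {k : Type*} [Field k] {E : Type*} [AddCommGroup E]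
  [Module k E] [DistribMulAction Γ E] [SMulCommClass Γ k E] {p : ℕ} [Fact p.Prime]
  {X V W : Subgroup Γ}

/-- the Frobenius identity. -/
theorem frobenius_fix (A : Subgroup Γ) (hcard : (Nat.card A : k) ≠ 0)
    (w₀ : Γ) (hw₀ : w₀ ^ p = 1) (hn : ∀ a ∈ A, w₀ * a * w₀⁻¹ ∈ A)
    (hfree : ∀ a ∈ A, w₀ * a * w₀⁻¹ = a → a = 1)
    (F : Set E) (hFA : ∀ a ∈ A, ∀ f ∈ F, a • f ∈ F)
    (hF : ∀ f ∈ F, (∑ j ∈ Finset.range p, w₀ ^ j • f) = 0) :
    ∀ f ∈ F, ∀ a ∈ A, a • f = f := by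
  classical
  intro f hf
  have hp : p.Prime := Fact.out
  have : Fintype A := Fintype.ofFinite _
  have hnj : ∀ j : ℕ, ∀ a ∈ A, w₀ ^ j * a * (w₀ ^ j)⁻¹ ∈ A := by
    intro j
    induction j with
    | zero => intro a ha; simpa using ha
    | succ j ih =>
      intro a ha
      have h1 : w₀ ^ (j + 1) * a * (w₀ ^ (j + 1))⁻¹ = w₀ * (w₀ ^ j * a * (w₀ ^ j)⁻¹) * w₀⁻¹ := by
        rw [pow_succ']
        group
      rw [h1]
      exact hn _ (ih a ha)
  have hfreej : ∀ j : ℕ, 0 < j → j < p → ∀ a ∈ A, w₀ ^ j * a * (w₀ ^ j)⁻¹ = a → a = 1 := by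
    intro j hj0 hjp a ha hja
    have h1 : j.Coprime (orderOf w₀) := by
      refine Nat.Coprime.coprime_dvd_right (orderOf_dvd_of_pow_eq_one hw₀) ?_
      exact (Nat.Coprime.symm ((Nat.Prime.coprime_iff_not_dvd hp).2
        (fun hd => absurd (Nat.le_of_dvd hj0 hd) (not_le_of_gt hjp))))
    obtain ⟨m, hm⟩ := exists_pow_eq_self_of_coprime h1
    refine hfree a ha ?_
    have h2 : Commute (w₀ ^ j) a := mul_inv_eq_iff_eq_mul.1 hja
    have h3 := h2.pow_left m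
    rw [hm] at h3
    exact mul_inv_eq_iff_eq_mul.2 h3
  have hstep : ∀ j : ℕ, 0 < j → j < p → ∀ e : E,
      ∑ a : A, ((a : Γ) * w₀ ^ j * (a : Γ)⁻¹) • e = ∑ a : A, (a : Γ) • w₀ ^ j • e := by
    intro j hj0 hjp e
    let φ : A → A := fun a => ⟨a * (w₀ ^ j * (a : Γ)⁻¹ * (w₀ ^ j)⁻¹),
      mul_mem a.2 (hnj j _ (inv_mem a.2))⟩
    have hinj : Function.Injective φ := by
      intro a b hab
      have h1 : (a : Γ) * (w₀ ^ j * (a : Γ)⁻¹ * (w₀ ^ j)⁻¹) =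
        (b : Γ) * (w₀ ^ j * (b : Γ)⁻¹ * (w₀ ^ j)⁻¹) := congrArg Subtype.val hab
      have h2 : w₀ ^ j * ((b : Γ)⁻¹ * a) * (w₀ ^ j)⁻¹ = (b : Γ)⁻¹ * a := by
        have h3 : w₀ ^ j * ((b : Γ)⁻¹ * a) * (w₀ ^ j)⁻¹ =
          (b : Γ)⁻¹ * ((b : Γ) * (w₀ ^ j * (b : Γ)⁻¹ * (w₀ ^ j)⁻¹)) *
            (w₀ ^ j * a * (w₀ ^ j)⁻¹) := by group
        rw [h3, ← h1]
        group
      have h3 := hfreej j hj0 hjp _ (mul_mem (inv_mem b.2) a.2) h2
      exact (Subtype.ext (inv_mul_eq_one.1 h3)).symm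
    have hbij : Function.Bijective φ := Finite.injective_iff_bijective.1 hinj
    refine Fintype.sum_bijective φ hbij _ _ (fun a => ?_)
    simp only [φ, smul_smul]
    congr 1
    group
  have h0 : ∑ a : A, (a : Γ) • (∑ j ∈ Finset.range p, w₀ ^ j • ((a : Γ)⁻¹ • f)) = 0 := by
    refine Finset.sum_eq_zero (fun a _ => ?_)
    rw [hF _ (hFA _ (inv_mem a.2) f hf), smul_zero]
  have h1 : ∑ j ∈ Finset.range p, ∑ a : A, ((a : Γ) * w₀ ^ j * (a : Γ)⁻¹) • f = 0 := by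
    rw [Finset.sum_comm, ← h0]
    refine Finset.sum_congr rfl (fun a _ => ?_)
    rw [Finset.smul_sum]
    refine Finset.sum_congr rfl (fun j _ => ?_)
    simp only [smul_smul]
    congr 1
    group
  have h2 : ∑ j ∈ Finset.range p, ∑ a : A, (a : Γ) • w₀ ^ j • f = 0 := by
    rw [Finset.sum_comm]
    refine Finset.sum_eq_zero (fun a _ => ?_)
    rw [← Finset.smul_sum, hF f hf, smul_zero]
  obtain ⟨m, hm⟩ : ∃ m, p = m + 1 := ⟨p - 1, by have := hp.pos; omega⟩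
  have h3 : ∑ a : A, f = ∑ a : A, (a : Γ) • f := by
    have h4 := h1.trans h2.symm
    rw [hm, Finset.sum_range_succ', Finset.sum_range_succ'] at h4
    have h5 : ∑ j ∈ Finset.range m, ∑ a : A, ((a : Γ) * w₀ ^ (j + 1) * (a : Γ)⁻¹) • f =
      ∑ j ∈ Finset.range m, ∑ a : A, (a : Γ) • w₀ ^ (j + 1) • f := by
      refine Finset.sum_congr rfl (fun j hj => ?_)
      exact hstep (j + 1) (Nat.succ_pos j) (by have := Finset.mem_range.1 hj; omega) f
    rw [h5] at h4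
    have h6 := add_left_cancel h4
    simpa using h6
  rw [Finset.sum_const, Finset.card_univ, ← Nat.card_eq_fintype_card,
    ← Nat.cast_smul_eq_nsmul k] at h3
  intro a ha
  have h4 := sum_fixed A f a ha
  rw [← h3, smul_comm] at h4
  have h5 : (Nat.card A : k) • (a • f - f) = 0 := by rw [smul_sub, h4, sub_self]
  exact sub_eq_zero.1 ((smul_eq_zero.1 h5).resolve_left hcard)

theorem Hyp.comm_normal (h : Hyp p k E X V) (hWV : W ≤ V) : (⁅X, W⁆ : Subgroup Γ).Normal := by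
  have hX := h.normal
  have key : ∀ g : Γ, (∀ x ∈ X, ∀ w ∈ W, g * ⁅x, w⁆ * g⁻¹ ∈ ⁅X, W⁆) →
      ∀ y ∈ ⁅X, W⁆, g * y * g⁻¹ ∈ ⁅X, W⁆ := by
    intro g hg y hy
    have h1 : ⁅X, W⁆ ≤ (⁅X, W⁆ : Subgroup Γ).comap (MulAut.conj g).toMonoidHom := by
      rw [commutator_le]
      intro x hx w hw
      exact hg x hx w hw
    exact h1 hy
  refine ⟨fun y hy g => ?_⟩
  obtain ⟨v, hv, x, hx, rfl⟩ := h.exists_mul g
  have h2 : x * y * x⁻¹ ∈ ⁅X, W⁆ := by
    refine key x (fun a ha w hw => ?_) y hy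
    have h3 := mul_mem (commutator_mem_commutator (mul_mem hx ha) hw)
      (inv_mem (commutator_mem_commutator hx hw))
    have h4 : ⁅x * a, w⁆ * ⁅x, w⁆⁻¹ = x * ⁅a, w⁆ * x⁻¹ := by
      simp only [commutatorElement_def]
      group
    rwa [h4] at h3
  have h5 : v * (x * y * x⁻¹) * v⁻¹ ∈ ⁅X, W⁆ := by
    refine key v (fun a ha w hw => ?_) _ h2
    have h3 := commutator_mem_commutator (hX.conj_mem a ha v) hw
    have h4 : ⁅v * a * v⁻¹, w⁆ = v * ⁅a, w⁆ * v⁻¹ := by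
      have h6 : v⁻¹ * w = w * v⁻¹ := h.comm _ (inv_mem hv) w (hWV hw)
      have h7 : v⁻¹ * w⁻¹ = w⁻¹ * v⁻¹ := h.comm _ (inv_mem hv) _ (inv_mem (hWV hw))
      simp only [commutatorElement_def]
      calc v * a * v⁻¹ * w * (v * a * v⁻¹)⁻¹ * w⁻¹ = v * a * (v⁻¹ * w) * v * a⁻¹ * (v⁻¹ * w⁻¹) := by
            group
        _ = v * a * (w * v⁻¹) * v * a⁻¹ * (w⁻¹ * v⁻¹) := by rw [h6, h7]
        _ = v * (a * w * a⁻¹ * w⁻¹) * v⁻¹ := by group
    rwa [h4] at h3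
  have h6 : v * x * y * (v * x)⁻¹ = v * (x * y * x⁻¹) * v⁻¹ := by group
  rw [h6]
  exact h5

theorem comm_central {K : Subgroup Γ} [hK : K.Normal]
    (hKW : ∀ w ∈ W, ∀ x ∈ K, w * x * w⁻¹ = x) : ∀ c ∈ ⁅X, W⁆, ∀ z ∈ K, c * z = z * c := by
  have h1 : ⁅X, W⁆ ≤ centralizer (K : Set Γ) := by
    rw [commutator_le]
    intro x hx w hw
    rw [mem_centralizer_iff]
    intro z hz
    have h2 : x⁻¹ * z * x ∈ K := by simpa using hK.conj_mem z hz x⁻¹
    have h3 := hKW w hw _ h2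
    have h4 := hKW w hw z hz
    have h5 : x * w * x⁻¹ * w⁻¹ * z * (x * w * x⁻¹ * w⁻¹)⁻¹ = z := by
      calc x * w * x⁻¹ * w⁻¹ * z * (x * w * x⁻¹ * w⁻¹)⁻¹
          = x * w * x⁻¹ * (w⁻¹ * z * w) * x * w⁻¹ * x⁻¹ := by group
        _ = x * w * x⁻¹ * (w⁻¹ * (w * z * w⁻¹) * w) * x * w⁻¹ * x⁻¹ := by rw [h4]
        _ = x * (w * (x⁻¹ * z * x) * w⁻¹) * x⁻¹ := by group
        _ = x * (x⁻¹ * z * x) * x⁻¹ := by rw [h3]
        _ = z := by group
    have h6 := mul_inv_eq_iff_eq_mul.1 h5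
    simp only [commutatorElement_def]
    exact h6.symm
  intro c hc z hz
  exact ((mem_centralizer_iff.1 (h1 hc)) z hz).symm

theorem sup_zpowers {U : Subgroup Γ} {w₀ : Γ} (hc : ∀ u ∈ U, u * w₀ = w₀ * u) :
    ∀ g ∈ U ⊔ zpowers w₀, ∃ u ∈ U, ∃ m : ℤ, g = u * w₀ ^ m := by
  have hcm : ∀ u ∈ U, ∀ m : ℤ, u * w₀ ^ m = w₀ ^ m * u := fun u hu m =>
    (show Commute u w₀ from hc u hu).zpow_right m
  let S : Subgroup Γ :=
    { carrier := {g | ∃ u ∈ U, ∃ m : ℤ, g = u * w₀ ^ m}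
      one_mem' := ⟨1, U.one_mem, 0, by simp⟩
      mul_mem' := by
        rintro a b ⟨u, hu, m, rfl⟩ ⟨u', hu', m', rfl⟩
        refine ⟨u * u', mul_mem hu hu', m + m', ?_⟩
        rw [zpow_add, mul_assoc, ← mul_assoc (w₀ ^ m), ← hcm u' hu' m]
        simp only [mul_assoc]
      inv_mem' := by
        rintro a ⟨u, hu, m, rfl⟩
        refine ⟨u⁻¹, inv_mem hu, -m, ?_⟩
        rw [mul_inv_rev, ← zpow_neg, hcm _ (inv_mem hu)] }
  have h1 : U ⊔ zpowers w₀ ≤ S := by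
    refine sup_le (fun u hu => ⟨u, hu, 0, by simp⟩) ?_
    rw [zpowers_le]
    exact ⟨1, U.one_mem, 1, by simp⟩
  exact fun g hg => h1 hg

end

end Pool.Agent.Helper6K1.RegAut
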