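import Pool.Agent.Helper6K1.RegAut.CoreTwo

set_option autoImplicit false

/-! The main theorem for faithful irreducible modules. -/

namespace Pool.Agent.Helper6K1.RegAut

open Subgroup
open scoped commutatorElement

variable {Γ : Type*} [Group Γ] [Finite Γ] {k : Type*} [Field k] {E : Type*} [AddCommGroup E]
  [Module k E] [DistribMulAction Γ E] [SMulCommClass Γ k E] {p : ℕ} [Fact p.Prime]
  {X V W : Subgroup Γ}

/-- **Main theorem**, faithful irreducible case. -/
theorem Hyp.core (h : Hyp p k E X V) [IsAlgClosed k] [FiniteDimensional k E] [Nontrivial E]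
    {q : ℕ} [Fact q.Prime] [CharP k q] (hpk : (p : k) ≠ 0) :
    ∃ w ∈ V, w ≠ 1 ∧ ∀ x ∈ X, w * x * w⁻¹ = x := by
  classical
  obtain ⟨W, hW⟩ := exists_minW h
  have hX := h.normal
  obtain ⟨K, hK⟩ : ∃ K : Subgroup Γ, K = normalCore (X ⊓ centralizer (W : Set Γ)) := ⟨_, rfl⟩
  have hKn : K.Normal := by rw [hK]; infer_instance
  have hKle : K ≤ X ⊓ centralizer (W : Set Γ) := by rw [hK]; exact normalCore_le _
  have hKX : K ≤ X := hKle.trans inf_le_left
  have hKW : ∀ w ∈ W, ∀ x ∈ K, w * x * w⁻¹ = x := by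
    intro w hw x hx
    have h1 := (mem_centralizer_iff.1 (Subgroup.mem_inf.1 (hKle hx)).2) w hw
    exact mul_inv_eq_iff_eq_mul.2 h1
  have hKmax : ∀ L : Subgroup Γ, L.Normal → L ≤ X → (∀ w ∈ W, ∀ x ∈ L, w * x * w⁻¹ = x) →
      L ≤ K := by
    intro L hL hLX hLW
    rw [hK, normal_le_normalCore]
    intro x hx
    refine Subgroup.mem_inf.2 ⟨hLX hx, ?_⟩
    rw [mem_centralizer_iff]
    intro w hw
    exact mul_inv_eq_iff_eq_mul.1 (hLW w hw x hx)
  by_cases hKX' : K = X
  · obtain ⟨e, he⟩ := exists_ne (0 : E)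
    have h1 : ∃ w ∈ W, w ≠ 1 := by
      by_contra hcon
      push Not at hcon
      exact he (hW.fix e (fun w hw => by rw [hcon w hw, one_smul]))
    obtain ⟨w, hw, hw1⟩ := h1
    exact ⟨w, hW.le hw, hw1, fun x hx => hKW w hw x (by rw [hKX']; exact hx)⟩
  · exfalso
    obtain ⟨D', hD'n, hKD', hD'X, hD'c⟩ := exists_chief X K h.sol (lt_of_le_of_ne hKX hKX')
    have hPn := h.comm_normal hW.le
    obtain ⟨D, hD⟩ : ∃ D : Subgroup Γ, D = D' ⊓ ⁅X, W⁆ := ⟨_, rfl⟩
    have hDn : D.Normal := by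
      rw [hD]
      refine ⟨fun x hx g => ?_⟩
      obtain ⟨hx1, hx2⟩ := Subgroup.mem_inf.1 hx
      exact Subgroup.mem_inf.2 ⟨hD'n.conj_mem x hx1 g, hPn.conj_mem x hx2 g⟩
    have hDD' : D ≤ D' := by rw [hD]; exact inf_le_left
    have hDP : D ≤ ⁅X, W⁆ := by rw [hD]; exact inf_le_right
    have hstep : ∀ d ∈ D', ∀ w ∈ W, d⁻¹ * (w * d * w⁻¹) ∈ D := by
      intro d hd w hw
      rw [hD]
      refine Subgroup.mem_inf.2 ⟨mul_mem (inv_mem hd) (hD'n.conj_mem d hd w), ?_⟩
      have h1 := commutator_mem_commutator (inv_mem (hD'X hd)) hw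
      rw [commutatorElement_def] at h1
      have h2 : d⁻¹ * w * d⁻¹⁻¹ * w⁻¹ = d⁻¹ * (w * d * w⁻¹) := by group
      rwa [h2] at h1
    have hnle : ¬ D ≤ K := by
      intro hle
      refine absurd (hKmax D' hD'n hD'X ?_) (not_le_of_gt hKD')
      intro w hw d hd
      have h1 := hle (hstep d hd w hw)
      exact coprime_step (p := p) h.not_dvd w d (h.exp w (hW.le hw)) (hKX h1) (hKW w hw _ h1)
    have hc : Crit X V W K D :=
      { normK := hKn
        normD := hDn
        KX := hKX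
        KW := hKW
        max := hKmax
        DP := hDP
        DX := hDD'.trans hD'X
        comm := fun a ha b hb => hD'c (commutator_mem_commutator (hDD' ha) (hDD' hb))
        notle := hnle }
    have hsec : Section D (D ⊓ K) V :=
      { le := inf_le_left
        comm := fun a ha b hb => by
          refine Subgroup.mem_inf.2 ⟨mul_mem (mul_mem (mul_mem ha hb) (inv_mem ha)) (inv_mem hb), ?_⟩
          have h1 := hc.comm a ha b hb
          rwa [commutatorElement_def] at h1
        normY := fun t _ y hy => hDn.conj_mem y hy t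
        normQ := fun t _ y hy => by
          obtain ⟨hy1, hy2⟩ := Subgroup.mem_inf.1 hy
          exact Subgroup.mem_inf.2 ⟨hDn.conj_mem y hy1 t, hKn.conj_mem y hy2 t⟩ }
    have hnt : ∃ w ∈ W, ∃ y ∈ D, y⁻¹ * (w * y * w⁻¹) ∉ (D ⊓ K : Subgroup Γ) := by
      by_contra hcon
      push Not at hcon
      apply hnle
      refine hKmax D hDn hc.DX ?_
      intro w hw d hd
      have h1 := (Subgroup.mem_inf.1 (hcon w hw d hd)).2
      exact coprime_step (p := p) h.not_dvd w d (h.exp w (hW.le hw)) (hKX h1) (hKW w hw _ h1)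
    obtain ⟨U, hUV, w₀, hw₀, hw₀U, hsup, y, hy, hyQ, hyU⟩ :=
      exists_hyperplane_section (p := p) hsec h.comm h.exp
        (fun hd => h.not_dvd (hd.trans (Subgroup.card_dvd_of_le hc.DX))) W hW.le hnt
    have h1 := hc.fixed_eq_one (q := q) h hW hpk U hUV w₀ hw₀ hw₀U hsup y hy hyU
    apply hyQ
    rw [h1]
    exact Subgroup.one_mem _

end Pool.Agent.Helper6K1.RegAut
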