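import Pool.Agent.Helper6K1.RegAut.Core

set_option autoImplicit false

/-! The key step: a section of `X` on which `W` acts nontrivially gives a contradiction. -/

namespace Pool.Agent.Helper6K1.RegAut

open Subgroup
open scoped commutatorElement

variable {Γ : Type*} [Group Γ] [Finite Γ] {k : Type*} [Field k] {E : Type*} [AddCommGroup E]
  [Module k E] [DistribMulAction Γ E] [SMulCommClass Γ k E] {p : ℕ} [Fact p.Prime]
  {X V W : Subgroup Γ}

/-- the hypotheses on the critical section. -/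
structure Crit (X V W K D : Subgroup Γ) : Prop where
  normK : K.Normal
  normD : D.Normal
  KX : K ≤ X
  KW : ∀ w ∈ W, ∀ x ∈ K, w * x * w⁻¹ = x
  max : ∀ L : Subgroup Γ, L.Normal → L ≤ X → (∀ w ∈ W, ∀ x ∈ L, w * x * w⁻¹ = x) → L ≤ K
  DP : D ≤ ⁅X, W⁆
  DX : D ≤ X
  comm : ∀ a ∈ D, ∀ b ∈ D, ⁅a, b⁆ ∈ K
  notle : ¬ D ≤ K

theorem Crit.fixed_eq_one {K D : Subgroup Γ} (hc : Crit X V W K D) (h : Hyp p k E X V)
    [IsAlgClosed k] [FiniteDimensional k E] [Nontrivial E] {q : ℕ} [Fact q.Prime] [CharP k q]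
    (hW : MinW E V W) (hpk : (p : k) ≠ 0) (U : Subgroup Γ) (hUV : U ≤ V) (w₀ : Γ)
    (hw₀ : w₀ ∈ W) (hw₀U : w₀ ∉ U) (hsup : U ⊔ zpowers w₀ = V) (a : Γ) (ha : a ∈ D)
    (haU : ∀ u ∈ U, u * a * u⁻¹ = a) : a = 1 := by
  classical
  have hX := h.normal
  have hKn := hc.normK
  have hDn := hc.normD
  have hDK : ∀ c ∈ D, ∀ z ∈ K, c * z = z * c := fun c hcD z hz =>
    comm_central hc.KW c (hc.DP hcD) z hz
  have hw₀V : w₀ ∈ V := hW.le hw₀
  have hUw : ∀ u ∈ U, u * w₀ = w₀ * u := fun u hu => h.comm u (hUV hu) w₀ hw₀V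
  -- the subgroup `A`
  obtain ⟨A, hA⟩ : ∃ A : Subgroup Γ, A = D ⊓ centralizer (U : Set Γ) := ⟨_, rfl⟩
  have hAmem : ∀ x, x ∈ A ↔ x ∈ D ∧ ∀ u ∈ U, u * x = x * u := by
    intro x
    rw [hA, Subgroup.mem_inf, mem_centralizer_iff]
    rfl
  have haA : a ∈ A := (hAmem a).2 ⟨ha, fun u hu => mul_inv_eq_iff_eq_mul.1 (haU u hu)⟩
  have hfree : ∀ x ∈ A, w₀ * x * w₀⁻¹ = x → x = 1 := by
    intro x hx hxw
    obtain ⟨hx1, hx2⟩ := (hAmem x).1 hx
    refine h.cent x (hc.DX hx1) ?_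
    have h1 : V ≤ centralizer ({x} : Set Γ) := by
      rw [← hsup]
      refine sup_le (fun u hu => ?_) ?_
      · rw [mem_centralizer_singleton_iff]
        exact hx2 u hu
      · rw [zpowers_le, mem_centralizer_singleton_iff]
        exact mul_inv_eq_iff_eq_mul.1 hxw
    intro v hv
    exact mul_inv_eq_iff_eq_mul.2 (mem_centralizer_singleton_iff.1 (h1 hv))
  have hn : ∀ x ∈ A, w₀ * x * w₀⁻¹ ∈ A := by
    intro x hx
    obtain ⟨hx1, hx2⟩ := (hAmem x).1 hx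
    refine (hAmem _).2 ⟨hDn.conj_mem x hx1 w₀, fun u hu => ?_⟩
    have h1 : w₀⁻¹ * u = u * w₀⁻¹ := by
      rw [inv_mul_eq_iff_eq_mul, ← mul_assoc, ← hUw u hu, mul_inv_cancel_right]
    calc u * (w₀ * x * w₀⁻¹) = (u * w₀) * x * w₀⁻¹ := by group
      _ = w₀ * (u * x) * w₀⁻¹ := by rw [hUw u hu]; group
      _ = w₀ * x * (u * w₀⁻¹) := by rw [hx2 u hu]; group
      _ = w₀ * x * w₀⁻¹ * u := by rw [← h1]; group
  -- the centre of `D`
  obtain ⟨C, hC⟩ : ∃ C : Subgroup Γ, C = D ⊓ centralizer (D : Set Γ) := ⟨_, rfl⟩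
  have hCmem : ∀ x, x ∈ C ↔ x ∈ D ∧ ∀ d ∈ D, d * x = x * d := by
    intro x
    rw [hC, Subgroup.mem_inf, mem_centralizer_iff]
    rfl
  have hCn : C.Normal := by
    refine ⟨fun x hx g => ?_⟩
    obtain ⟨hx1, hx2⟩ := (hCmem x).1 hx
    refine (hCmem _).2 ⟨hDn.conj_mem x hx1 g, fun d hd => ?_⟩
    have h1 : g⁻¹ * d * g ∈ D := by simpa using hDn.conj_mem d hd g⁻¹
    have h2 := hx2 _ h1
    calc d * (g * x * g⁻¹) = g * ((g⁻¹ * d * g) * x) * g⁻¹ := by group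
      _ = g * (x * (g⁻¹ * d * g)) * g⁻¹ := by rw [h2]
      _ = g * x * g⁻¹ * d := by group
  have hCab : ∀ x ∈ C, ∀ y ∈ C, x * y = y * x := fun x hx y hy =>
    ((hCmem y).1 hy).2 x ((hCmem x).1 hx).1
  have hCK : C ≤ K := by
    refine hc.max C hCn (fun x hx => hc.DX ((hCmem x).1 hx).1) ?_
    exact h.abelian_central hW hpk C hCab
  have hZn : (D ⊓ K : Subgroup Γ).Normal := by
    refine ⟨fun x hx g => ?_⟩
    obtain ⟨hx1, hx2⟩ := Subgroup.mem_inf.1 hx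
    exact Subgroup.mem_inf.2 ⟨hDn.conj_mem x hx1 g, hKn.conj_mem x hx2 g⟩
  have hZab : ∀ x ∈ (D ⊓ K : Subgroup Γ), ∀ y ∈ (D ⊓ K : Subgroup Γ), x * y = y * x :=
    fun x hx y hy => hDK x (Subgroup.mem_inf.1 hx).1 y (Subgroup.mem_inf.1 hy).2
  have hcm : ∀ x ∈ D, ∀ y ∈ D, x * y * x⁻¹ * y⁻¹ ∈ (D ⊓ K : Subgroup Γ) := by
    intro x hx y hy
    refine Subgroup.mem_inf.2 ⟨?_, ?_⟩
    · exact mul_mem (mul_mem (mul_mem hx hy) (inv_mem hx)) (inv_mem hy)
    · have h1 := hc.comm x hx y hy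
      rwa [commutatorElement_def] at h1
  -- no elements of order `q`
  have hnoq : ∀ d ∈ D, d ^ q = 1 → d = 1 := by
    intro d hd hdq
    refine h.no_q (q := q) C hCab d ((hCmem d).2 ⟨hd, fun b hb => ?_⟩) hdq
    obtain ⟨z, hz⟩ : ∃ z, z = b * d * b⁻¹ * d⁻¹ := ⟨_, rfl⟩
    have hzm : z ∈ (D ⊓ K : Subgroup Γ) := by rw [hz]; exact hcm b hb d hd
    have h1 : b * d * b⁻¹ = z * d := by rw [hz]; group
    have h2 : Commute z d := (hDK d hd z (Subgroup.mem_inf.1 hzm).2).symm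
    have h3 : (b * d * b⁻¹) ^ q = 1 := by rw [conj_pow, hdq]; group
    rw [h1, h2.mul_pow, hdq, mul_one] at h3
    have h4 := h.no_q (q := q) (D ⊓ K : Subgroup Γ) hZab z hzm h3
    rw [h4, one_mul] at h1
    exact mul_inv_eq_iff_eq_mul.1 h1
  have hcard : (Nat.card A : k) ≠ 0 := by
    intro h0
    rw [CharP.cast_eq_zero_iff k q] at h0
    obtain ⟨x, hx⟩ := exists_prime_orderOf_dvd_card' q h0
    have h1 : (x : Γ) ^ q = 1 := by
      have h2 : x ^ q = 1 := by rw [← hx]; exact pow_orderOf_eq_one x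
      have h3 := congrArg (Subtype.val) h2
      simpa using h3
    have h2 := hnoq x ((hAmem x).1 x.2).1 h1
    have h3 : x = 1 := Subtype.ext h2
    rw [h3, orderOf_one] at hx
    exact (Fact.out : q.Prime).one_lt.ne hx
  -- the fixed vectors
  obtain ⟨F, hF⟩ : ∃ F : Set E, F = {f | ∀ w ∈ W, w ∈ U → w • f = f} := ⟨_, rfl⟩
  have hFmem : ∀ f, f ∈ F ↔ ∀ w ∈ W, w ∈ U → w • f = f := by
    intro f
    rw [hF]
    rfl
  have hFc : ∀ g : Γ, (∀ w ∈ W, w ∈ U → w * g = g * w) → ∀ f ∈ F, g • f ∈ F := by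
    intro g hg f hf
    rw [hFmem] at hf ⊢
    intro w hw hwU
    rw [smul_smul, hg w hw hwU, mul_smul, hf w hw hwU]
  have hFA : ∀ x ∈ A, ∀ f ∈ F, x • f ∈ F := fun x hx =>
    hFc x (fun w _ hwU => ((hAmem x).1 hx).2 w hwU)
  have hsum : ∀ f ∈ F, (∑ j ∈ Finset.range p, w₀ ^ j • f) = 0 := by
    intro f hf
    refine hW.fix _ (fun w hw => ?_)
    have h0 : w₀ • (∑ j ∈ Finset.range p, w₀ ^ j • f) = ∑ j ∈ Finset.range p, w₀ ^ j • f := by
      have h1 : ∑ j ∈ Finset.range (p + 1), w₀ ^ j • f =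
        w₀ • (∑ j ∈ Finset.range p, w₀ ^ j • f) + f := by
        rw [Finset.sum_range_succ', Finset.smul_sum, pow_zero, one_smul]
        congr 1
        refine Finset.sum_congr rfl (fun j _ => ?_)
        rw [pow_succ', mul_smul]
      rw [Finset.sum_range_succ, h.exp w₀ hw₀V, one_smul] at h1
      exact (add_right_cancel h1).symm
    have h1 : ∀ m : ℤ, w₀ ^ m • (∑ j ∈ Finset.range p, w₀ ^ j • f) =
        ∑ j ∈ Finset.range p, w₀ ^ j • f := by
      intro m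
      have h2 : w₀ ∈ MulAction.stabilizer Γ (∑ j ∈ Finset.range p, w₀ ^ j • f) := h0
      exact zpow_mem h2 m
    obtain ⟨u, hu, m, hum⟩ := sup_zpowers hUw w (by rw [hsup]; exact hW.le hw)
    have huW : u ∈ W := by
      have h2 : u = w * (w₀ ^ m)⁻¹ := by rw [hum]; group
      rw [h2]
      exact mul_mem hw (inv_mem (zpow_mem hw₀ m))
    rw [hum, mul_smul, h1, Finset.smul_sum]
    refine Finset.sum_congr rfl (fun j _ => ?_)
    have h2 : u * w₀ ^ j = w₀ ^ j * u := (show Commute u w₀ from hUw u hu).pow_right j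
    rw [smul_smul, h2, mul_smul, (hFmem f).1 hf u huW hu]
  have hAF : ∀ f ∈ F, ∀ x ∈ A, x • f = f :=
    frobenius_fix (p := p) A hcard w₀ (h.exp w₀ hw₀V) hn hfree F hFA hsum
  -- a nonzero element of `F`
  obtain ⟨f₀, hf₀, hf₀F⟩ : ∃ f₀ : E, f₀ ≠ 0 ∧ f₀ ∈ F := by
    obtain ⟨f₀, hf₀, hf₁⟩ := hW.min (W ⊓ U) (by
      refine lt_of_le_of_ne inf_le_left (fun h0 => hw₀U ?_)
      rw [← h0] at hw₀
      exact (Subgroup.mem_inf.1 hw₀).2)
    exact ⟨f₀, hf₀, (hFmem f₀).2 (fun w hw hwU => hf₁ w (Subgroup.mem_inf.2 ⟨hw, hwU⟩))⟩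
  -- elements of the bottom acting trivially on `F` are trivial
  have hZ3 : ∀ z ∈ (D ⊓ K : Subgroup Γ), (∀ f ∈ F, z • f = f) → z = 1 := by
    let Z : Subgroup Γ :=
      { carrier := {z | z ∈ (D ⊓ K : Subgroup Γ) ∧ ∀ f ∈ F, z • f = f}
        one_mem' := ⟨Subgroup.one_mem _, fun f _ => one_smul _ f⟩
        mul_mem' := by
          rintro x y ⟨hx, hx2⟩ ⟨hy, hy2⟩
          exact ⟨mul_mem hx hy, fun f hf => by rw [mul_smul, hy2 f hf, hx2 f hf]⟩
        inv_mem' := by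
          rintro x ⟨hx, hx2⟩
          exact ⟨inv_mem hx, fun f hf => by rw [inv_smul_eq_iff, hx2 f hf]⟩ }
    have hstep : ∀ g : Γ, (∀ w ∈ W, w ∈ U → w * g = g * w) → ∀ z ∈ Z, g * z * g⁻¹ ∈ Z := by
      intro g hg z hz
      refine ⟨hZn.conj_mem z hz.1 g, fun f hf => ?_⟩
      have h1 : g⁻¹ • f ∈ F := by
        refine hFc _ (fun w hw hwU => ?_) f hf
        rw [eq_inv_mul_iff_mul_eq, ← mul_assoc, ← hg w hw hwU, mul_inv_cancel_right]
      rw [mul_smul, mul_smul, hz.2 _ h1, smul_inv_smul]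
    have hZnorm : Z.Normal := by
      refine ⟨fun z hz g => ?_⟩
      obtain ⟨v, hv, x, hx, rfl⟩ := h.exists_mul g
      have hcn := h.comm_normal hW.le
      have hcX : ⁅X, W⁆ ≤ X := by
        rw [commutator_le]
        intro b hb w hw
        rw [commutatorElement_def]
        have h1 := mul_mem hb (hX.conj_mem _ (inv_mem hb) w)
        have h2 : b * (w * b⁻¹ * w⁻¹) = b * w * b⁻¹ * w⁻¹ := by group
        rwa [h2] at h1
      obtain ⟨c, hcP, hcfix⟩ := exists_fixed_coset (p := p) W (fun t ht => h.exp t (hW.le ht))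
        ⁅X, W⁆ (fun t _ r hr => hcn.conj_mem r hr t)
        (fun hd => h.not_dvd (hd.trans (Subgroup.card_dvd_of_le hcX))) x (by
          intro t ht
          have h1 := commutator_mem_commutator (inv_mem hx) ht
          rw [commutatorElement_def] at h1
          have h2 : x⁻¹ * t * x⁻¹⁻¹ * t⁻¹ = x⁻¹ * (t * x * t⁻¹) := by group
          rwa [h2] at h1)
      have h1 : x * z * x⁻¹ = (x * c) * z * (x * c)⁻¹ := by
        have h2 : c * z = z * c :=
          comm_central hc.KW c hcP z (Subgroup.mem_inf.1 hz.1).2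
        calc x * z * x⁻¹ = x * (z * c) * c⁻¹ * x⁻¹ := by group
          _ = x * (c * z) * c⁻¹ * x⁻¹ := by rw [h2]
          _ = (x * c) * z * (x * c)⁻¹ := by group
      have h2 : x * z * x⁻¹ ∈ Z := by
        rw [h1]
        exact hstep _ (fun w hw _ => mul_inv_eq_iff_eq_mul.1 (hcfix w hw)) z hz
      have h3 := hstep v (fun w hw _ => h.comm w (hW.le hw) v hv) _ h2
      have h4 : v * x * z * (v * x)⁻¹ = v * (x * z * x⁻¹) * v⁻¹ := by group
      rw [h4]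
      exact h3
    intro z hz hzF
    exact h.eq_one_of_fixed Z f₀ hf₀ (fun y hy => hy.2 f₀ hf₀F) z ⟨hz, hzF⟩
  -- `A` commutes with the elements of `D` fixed by `W ⊓ U`
  have hAc : ∀ x ∈ A, ∀ c ∈ D, (∀ w ∈ W, w ∈ U → w * c = c * w) → x * c = c * x := by
    intro x hx c hcD hcW
    have h1 : x * c * x⁻¹ * c⁻¹ = 1 := by
      refine hZ3 _ (hcm x ((hAmem x).1 hx).1 c hcD) (fun f hf => ?_)
      have h2 : c⁻¹ • f ∈ F := by
        refine hFc _ (fun w hw hwU => ?_) f hf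
        rw [eq_inv_mul_iff_mul_eq, ← mul_assoc, ← hcW w hw hwU, mul_inv_cancel_right]
      rw [mul_smul, mul_smul, mul_smul, hAF _ h2 _ (inv_mem hx), smul_inv_smul, hAF f hf x hx]
    have h2 := mul_inv_eq_one.1 h1
    exact mul_inv_eq_iff_eq_mul.1 h2
  have hAD : ∀ x ∈ A, ∀ d ∈ D, x * d = d * x := by
    intro x hx d hd
    obtain ⟨hx1, hx2⟩ := (hAmem x).1 hx
    obtain ⟨r, hr, hrfix⟩ := exists_fixed_coset (p := p) (W ⊓ U)
      (fun t ht => h.exp t (hW.le (Subgroup.mem_inf.1 ht).1)) (D ⊓ centralizer ({x} : Set Γ)) (by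
        intro t ht r hr
        obtain ⟨ht1, ht2⟩ := Subgroup.mem_inf.1 ht
        obtain ⟨hr1, hr2⟩ := Subgroup.mem_inf.1 hr
        have ht3 : t ∈ centralizer ({x} : Set Γ) := by
          rw [mem_centralizer_singleton_iff]
          exact hx2 t ht2
        exact Subgroup.mem_inf.2 ⟨hDn.conj_mem r hr1 t,
          mul_mem (mul_mem ht3 hr2) (inv_mem ht3)⟩)
      (fun hd => h.not_dvd (hd.trans (Subgroup.card_dvd_of_le (inf_le_left.trans hc.DX)))) d (by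
        intro t ht
        obtain ⟨ht1, ht2⟩ := Subgroup.mem_inf.1 ht
        refine Subgroup.mem_inf.2 ⟨mul_mem (inv_mem hd) (hDn.conj_mem d hd t), ?_⟩
        rw [mem_centralizer_singleton_iff]
        obtain ⟨z, hz⟩ : ∃ z, z = x * d * x⁻¹ * d⁻¹ := ⟨_, rfl⟩
        have hzm : z ∈ (D ⊓ K : Subgroup Γ) := by rw [hz]; exact hcm x hx1 d hd
        have h1 : x * d * x⁻¹ = z * d := by rw [hz]; group
        have h2 : t * z * t⁻¹ = z := hc.KW t ht1 z (Subgroup.mem_inf.1 hzm).2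
        have h3 : t * x = x * t := hx2 t ht2
        have h3' : x * t⁻¹ = t⁻¹ * x := by
          rw [eq_inv_mul_iff_mul_eq, ← mul_assoc, h3, mul_inv_cancel_right]
        have h4 : x * (t * d * t⁻¹) * x⁻¹ = z * (t * d * t⁻¹) := by
          calc x * (t * d * t⁻¹) * x⁻¹ = (x * t) * d * (x * t)⁻¹ := by group
            _ = (t * x) * d * (t * x)⁻¹ := by rw [h3]
            _ = t * (x * d * x⁻¹) * t⁻¹ := by group
            _ = (t * z * t⁻¹) * (t * d * t⁻¹) := by rw [h1]; group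
            _ = z * (t * d * t⁻¹) := by rw [h2]
        have h5 : x * (d⁻¹ * (t * d * t⁻¹)) * x⁻¹ = d⁻¹ * (t * d * t⁻¹) := by
          calc x * (d⁻¹ * (t * d * t⁻¹)) * x⁻¹ = (x * d * x⁻¹)⁻¹ * (x * (t * d * t⁻¹) * x⁻¹) := by
                group
            _ = d⁻¹ * (t * d * t⁻¹) := by rw [h4, h1]; group
        exact (mul_inv_eq_iff_eq_mul.1 h5).symm)
    obtain ⟨hr1, hr2⟩ := Subgroup.mem_inf.1 hr
    rw [mem_centralizer_singleton_iff] at hr2
    have h6 := hAc x hx (d * r) (mul_mem hd hr1) (fun w hw hwU =>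
      mul_inv_eq_iff_eq_mul.1 (hrfix w (Subgroup.mem_inf.2 ⟨hw, hwU⟩)))
    have h7 : x * d * r = d * x * r := by
      rw [mul_assoc, h6, mul_assoc, mul_assoc, hr2]
    exact mul_right_cancel h7
  have haC : a ∈ C := (hCmem a).2 ⟨ha, fun d hd => (hAD a haA d hd).symm⟩
  exact hfree a haA (hc.KW w₀ hw₀ a (hCK haC))

end Pool.Agent.Helper6K1.RegAut
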