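import Pool.Agent.Helper6K1.RegAut.Basic

set_option autoImplicit false

/-! Fixed points of hyperplanes on abelian groups. -/

namespace Pool.Agent.Helper6K1.RegAut

open Subgroup

theorem pow_inj_of {B : Type*} [CommGroup B] [Finite B] {m : ℕ} (h : m.Coprime (Nat.card B))
    (x y : B) (hxy : x ^ m = y ^ m) : x = y := by
  have h1 : (x * y⁻¹) ^ m = 1 := by
    rw [mul_pow, inv_pow, hxy, mul_inv_cancel]
  have h2 := orderOf_dvd_of_pow_eq_one h1
  have h3 := orderOf_dvd_natCard (x * y⁻¹)
  have h4 : orderOf (x * y⁻¹) = 1 := Nat.eq_one_of_dvd_coprimes h h2 h3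
  rw [orderOf_eq_one_iff] at h4
  exact mul_inv_eq_one.1 h4

theorem pow_val_add {V : Type*} [Group V] {p : ℕ} [Fact p.Prime] (v : V) (hv : v ^ p = 1)
    (i j : ZMod p) : v ^ (i + j).val = v ^ i.val * v ^ j.val := by
  rw [ZMod.val_add, ← pow_add]
  conv_rhs => rw [← Nat.div_add_mod (i.val + j.val) p]
  rw [pow_add, pow_mul, hv, one_pow, one_mul]

theorem pow_val_mul {V : Type*} [Group V] {p : ℕ} [Fact p.Prime] (v : V) (hv : v ^ p = 1)
    (i j : ZMod p) : v ^ (i * j).val = (v ^ i.val) ^ j.val := by
  rw [ZMod.val_mul, ← pow_mul]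
  conv_rhs => rw [← Nat.div_add_mod (i.val * j.val) p]
  rw [pow_add, pow_mul, hv, one_pow, one_mul]

theorem exists_hyperplane {B V : Type*} [CommGroup B] [Finite B] [Group V] [Finite V]
    (hcomm : ∀ s t : V, s * t = t * s) {p : ℕ} [Fact p.Prime] (hV : ∀ v : V, v ^ p = 1)
    [MulDistribMulAction V B] (hB : ¬ p ∣ Nat.card B) (W : Subgroup V)
    (hW : ∃ w ∈ W, ∃ b : B, w • b ≠ b) :
    ∃ U : Subgroup V, ∃ w ∈ W, w ∉ U ∧ U ⊔ zpowers w = ⊤ ∧ ∃ b : B, b ≠ 1 ∧ ∀ u ∈ U, u • b = b := by
  classical
  let P : Subgroup V → Prop := fun U => ∃ b : B, (∀ u ∈ U, u • b = b) ∧ ∃ w ∈ W, w • b ≠ b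
  have hbot : P ⊥ := by
    obtain ⟨w, hw, b, hb⟩ := hW
    refine ⟨b, fun u hu => ?_, w, hw, hb⟩
    rw [Subgroup.mem_bot.1 hu, one_smul]
  have : Nonempty {U : Subgroup V // P U} := ⟨⟨⊥, hbot⟩⟩
  obtain ⟨⟨U, b, hUb, w, hw, hwb⟩, hmax⟩ :=
    Finite.exists_max (fun U : {U : Subgroup V // P U} => Nat.card U.1)
  have hwU : w ∉ U := fun h => hwb (hUb w h)
  have hp : p.Prime := Fact.out
  have hco : p.Coprime (Nat.card B) := (Nat.Prime.coprime_iff_not_dvd hp).2 hB
  refine ⟨U, w, hw, hwU, ?_, b, ?_, hUb⟩
  · by_contra hne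
    obtain ⟨v, -, hv⟩ := SetLike.exists_of_lt (lt_top_iff_ne_top.2 hne)
    -- norms
    let N : V → B := fun t => ∏ j : ZMod p, t ^ j.val • b
    have hNfix : ∀ t : V, t ∉ U → w • N t = N t := by
      intro t ht
      by_contra hcon
      have h1 : P (U ⊔ zpowers t) := by
        refine ⟨N t, ?_, w, hw, hcon⟩
        have h2 : U ⊔ zpowers t ≤ MulAction.stabilizer V (N t) := by
          rw [sup_le_iff, zpowers_le]
          constructor
          · intro u hu
            show u • N t = N t
            simp only [N, Finset.smul_prod']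
            refine Finset.prod_congr rfl (fun j _ => ?_)
            rw [← mul_smul, hcomm, mul_smul, hUb u hu]
          · show t • N t = N t
            simp only [N, Finset.smul_prod']
            refine Fintype.prod_equiv (Equiv.addRight (1 : ZMod p)) _ _ (fun j => ?_)
            have h3 : t ^ (1 : ZMod p).val = t := by
              have : Fact (1 < p) := ⟨hp.one_lt⟩
              rw [ZMod.val_one, pow_one]
            rw [Equiv.coe_addRight, pow_val_add t (hV t), h3, ← mul_smul, hcomm]
        intro u hu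
        exact h2 hu
      have h4 := hmax ⟨_, h1⟩
      have h5 : U < U ⊔ zpowers t := by
        refine lt_of_le_of_ne le_sup_left (fun h => ht ?_)
        rw [h]
        exact le_sup_right (a := U) (mem_zpowers t)
      have h6 := Set.ncard_lt_ncard (show (U : Set V) ⊂ ((U ⊔ zpowers t : Subgroup V) : Set V) from h5)
        (Set.toFinite _)
      have h7 : Nat.card U < Nat.card (U ⊔ zpowers t : Subgroup V) := h6
      simp only at h4
      omega
    let F : ZMod p → ZMod p → B := fun j l => (w ^ j.val * v ^ l.val) • b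
    have hF0 : F 0 0 = b := by simp [F]
    have hN1 : ∀ i : ZMod p, N (w * v ^ i.val) = ∏ j, F j (i * j) := by
      intro i
      simp only [N, F]
      refine Finset.prod_congr rfl (fun j _ => ?_)
      have hc : Commute w (v ^ i.val) := hcomm _ _
      rw [hc.mul_pow, pow_val_mul v (hV v)]
    have hN2 : N v = ∏ l, F 0 l := by
      simp [N, F]
    let M : B := ∏ j, ∏ l, F j l
    have hM : w • M = M := by
      simp only [M, Finset.smul_prod']
      refine Fintype.prod_equiv (Equiv.addRight (1 : ZMod p)) _ _ (fun j => ?_)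
      refine Finset.prod_congr rfl (fun l _ => ?_)
      have h3 : w ^ (1 : ZMod p).val = w := by
        have : Fact (1 < p) := ⟨hp.one_lt⟩
        rw [ZMod.val_one, pow_one]
      simp only [F]
      rw [Equiv.coe_addRight, pow_val_add w (hV w), h3, ← mul_smul, ← mul_assoc, hcomm w]
    have hid : (∏ i : ZMod p, N (w * v ^ i.val)) * N v = b ^ p * M := by
      simp only [hN1, hN2, M]
      rw [Finset.prod_comm]
      have h1 : ∀ j : ZMod p, (∏ i : ZMod p, F j (i * j)) * (if j = 0 then ∏ l, F 0 l else 1) =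
          (if j = 0 then b ^ p else 1) * ∏ l, F j l := by
        intro j
        by_cases hj : j = 0
        · subst hj
          simp [hF0, ZMod.card]
        · simp only [hj, if_false, mul_one, one_mul]
          refine Fintype.prod_equiv (Equiv.mulRight₀ j hj) _ _ (fun i => ?_)
          rfl
      have h2 : (∏ j : ZMod p, ((∏ i : ZMod p, F j (i * j)) * (if j = 0 then ∏ l, F 0 l else 1))) =
          ∏ j : ZMod p, ((if j = 0 then b ^ p else 1) * ∏ l, F j l) :=
        Finset.prod_congr rfl (fun j _ => h1 j)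
      rw [Finset.prod_mul_distrib, Finset.prod_mul_distrib] at h2
      simpa using h2
    have hvU : v ∉ U := fun h => hv (le_sup_left (a := U) h)
    have hti : ∀ i : ZMod p, w * v ^ i.val ∉ U := by
      intro i hi
      by_cases h0 : i = 0
      · subst h0
        simp at hi
        exact hwU hi
      · apply hv
        -- v^i ∈ U ⊔ zpowers w
        have h1 : v ^ i.val ∈ U ⊔ zpowers w := by
          have h2 : w⁻¹ * (w * v ^ i.val) ∈ U ⊔ zpowers w :=
            mul_mem (inv_mem (le_sup_right (a := U) (mem_zpowers w))) (le_sup_left (a := U) hi)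
          rwa [inv_mul_cancel_left] at h2
        have h3 : (v ^ i.val) ^ (i⁻¹).val = v := by
          rw [← pow_val_mul v (hV v), mul_inv_cancel₀ h0]
          have : Fact (1 < p) := ⟨hp.one_lt⟩
          rw [ZMod.val_one, pow_one]
        rw [← h3]
        exact pow_mem h1 _
    have h8 : w • (b ^ p * M) = b ^ p * M := by
      rw [← hid, smul_mul', Finset.smul_prod', hNfix v hvU]
      congr 1
      exact Finset.prod_congr rfl (fun i _ => hNfix _ (hti i))
    rw [smul_mul', hM, mul_left_inj, smul_pow'] at h8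
    exact hwb (pow_inj_of hco _ _ h8)
  · rintro rfl
    exact hwb (smul_one w)

end Pool.Agent.Helper6K1.RegAut
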