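import Pool.Agent.Helper6K1.RegAut.Reduce

set_option autoImplicit false

/-! Nilpotency of the intersection of the commutator subgroups. -/

namespace Pool.Agent.Helper6K1.RegAut

open Subgroup
open scoped commutatorElement

section

variable {Γ : Type*} [Group Γ]

/-- the commutator subgroup `[X, v]`. -/
def cX (X : Subgroup Γ) (v : Γ) : Subgroup Γ :=
  closure {y | ∃ x ∈ X, y = x⁻¹ * (v * x * v⁻¹)}

theorem cX_map {Γ' : Type*} [Group Γ'] (φ : Γ →* Γ') (X : Subgroup Γ) (v : Γ) :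
    (cX X v).map φ = cX (X.map φ) (φ v) := by
  rw [cX, cX, MonoidHom.map_closure]
  congr 1
  ext y
  constructor
  · rintro ⟨_, ⟨x, hx, rfl⟩, rfl⟩
    exact ⟨φ x, ⟨x, hx, rfl⟩, by simp⟩
  · rintro ⟨_, ⟨x, hx, rfl⟩, rfl⟩
    exact ⟨x⁻¹ * (v * x * v⁻¹), ⟨x, hx, rfl⟩, by simp⟩

theorem Grp.cX_normal {p : ℕ} {X V : Subgroup Γ} (h : Grp p X V) (v : Γ) (hv : v ∈ V) :
    (cX X v).Normal := by
  have hX := h.normal
  have key : ∀ g : Γ, (∀ x ∈ X, g * (x⁻¹ * (v * x * v⁻¹)) * g⁻¹ ∈ cX X v) →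
      ∀ y ∈ cX X v, g * y * g⁻¹ ∈ cX X v := by
    intro g hg y hy
    have h1 : cX X v ≤ (cX X v).comap (MulAut.conj g).toMonoidHom := by
      rw [cX, closure_le]
      rintro _ ⟨x, hx, rfl⟩
      exact hg x hx
    exact h1 hy
  have hgen : ∀ x ∈ X, x⁻¹ * (v * x * v⁻¹) ∈ cX X v := fun x hx => subset_closure ⟨x, hx, rfl⟩
  refine ⟨fun y hy g => ?_⟩
  obtain ⟨u, hu, x, hx, rfl⟩ := h.exists_mul g
  have h2 : x * y * x⁻¹ ∈ cX X v := by
    refine key x (fun a ha => ?_) y hy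
    have h3 := mul_mem (hgen _ (mul_mem ha (inv_mem hx))) (inv_mem (hgen _ (inv_mem hx)))
    have h4 : (a * x⁻¹)⁻¹ * (v * (a * x⁻¹) * v⁻¹) * (x⁻¹⁻¹ * (v * x⁻¹ * v⁻¹))⁻¹ =
        x * (a⁻¹ * (v * a * v⁻¹)) * x⁻¹ := by group
    rwa [h4] at h3
  have h5 : u * (x * y * x⁻¹) * u⁻¹ ∈ cX X v := by
    refine key u (fun a ha => ?_) _ h2
    have h3 := hgen _ (hX.conj_mem a ha u)
    have h6 : u⁻¹ * v = v * u⁻¹ := h.comm _ (inv_mem hu) v hv
    have h7 : u⁻¹ * v⁻¹ = v⁻¹ * u⁻¹ := h.comm _ (inv_mem hu) _ (inv_mem hv)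
    have h6' : v * u = u * v := h.comm v hv u hu
    have h4 : (u * a * u⁻¹)⁻¹ * (v * (u * a * u⁻¹) * v⁻¹) = u * (a⁻¹ * (v * a * v⁻¹)) * u⁻¹ := by
      calc (u * a * u⁻¹)⁻¹ * (v * (u * a * u⁻¹) * v⁻¹)
          = u * a⁻¹ * u⁻¹ * (v * u) * a * (u⁻¹ * v⁻¹) := by group
        _ = u * a⁻¹ * u⁻¹ * (u * v) * a * (v⁻¹ * u⁻¹) := by rw [h6', h7]
        _ = u * (a⁻¹ * (v * a * v⁻¹)) * u⁻¹ := by group
    rwa [h4] at h3
  have h6 : u * x * y * (u * x)⁻¹ = u * (x * y * x⁻¹) * u⁻¹ := by group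
  rw [h6]
  exact h5

/-- additive characters of `N` with values in `k`. -/
def Chi (k : Type*) [Field k] (N : Subgroup Γ) : Submodule k (N → k) where
  carrier := {φ | ∀ a b, φ (a * b) = φ a + φ b}
  add_mem' := fun {φ ψ} hφ hψ a b => by
    simp only [Pi.add_apply]
    rw [hφ, hψ]
    ring
  zero_mem' := fun a b => by simp
  smul_mem' := fun c φ hφ a b => by
    simp only [Pi.smul_apply, smul_eq_mul]
    rw [hφ]
    ring

theorem chi_mul {k : Type*} [Field k] {N : Subgroup Γ} (φ : Chi k N) (a b : N) :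
    φ.1 (a * b) = φ.1 a + φ.1 b := φ.2 a b

theorem chi_one {k : Type*} [Field k] {N : Subgroup Γ} (φ : Chi k N) : φ.1 1 = 0 := by
  have h := chi_mul φ 1 1
  rw [mul_one] at h
  simpa using h

/-- the conjugation action on characters. -/
@[reducible] def Chi.act (k : Type*) [Field k] (N : Subgroup Γ) [hN : N.Normal] :
    DistribMulAction Γ (Chi k N) where
  smul g φ := ⟨fun n => φ.1 ⟨g⁻¹ * n * g, by simpa using hN.conj_mem n n.2 g⁻¹⟩, fun a b => by
    show φ.1 _ = φ.1 _ + φ.1 _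
    rw [← chi_mul φ]
    refine congrArg φ.1 (Subtype.ext ?_)
    show g⁻¹ * (a * b) * g = g⁻¹ * a * g * (g⁻¹ * b * g)
    group⟩
  one_smul φ := by
    apply Subtype.ext
    funext n
    show φ.1 _ = φ.1 n
    refine congrArg φ.1 (Subtype.ext ?_)
    show (1 : Γ)⁻¹ * n * 1 = n
    simp
  mul_smul g h φ := by
    apply Subtype.ext
    funext n
    show φ.1 _ = φ.1 _
    refine congrArg φ.1 (Subtype.ext ?_)
    show (g * h)⁻¹ * n * (g * h) = h⁻¹ * (g⁻¹ * n * g) * h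
    group
  smul_zero g := rfl
  smul_add g φ ψ := rfl

end

section

variable {Γ : Type*} [Group Γ] [Finite Γ] {p : ℕ} [Fact p.Prime] {X V : Subgroup Γ}

omit [Finite Γ] [Fact p.Prime] in
theorem exists_functional' {M : Type*} [AddCommGroup M] {q : ℕ} [Fact q.Prime]
    [Module (ZMod q) M] (b : M) (hb : b ≠ 0) (k : Type*) [Field k] [Algebra (ZMod q) k] :
    ∃ f : M → k, (∀ a c, f (a + c) = f a + f c) ∧ f b ≠ 0 := by
  have h1 : ∃ f : M →ₗ[ZMod q] (ZMod q), f b ≠ 0 := by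
    by_contra hcon
    push Not at hcon
    exact hb ((Module.forall_dual_apply_eq_zero_iff (ZMod q) b).1 hcon)
  obtain ⟨f, hf⟩ := h1
  refine ⟨fun m => algebraMap (ZMod q) k (f m), fun a c => ?_, fun h0 => hf ?_⟩
  · show algebraMap (ZMod q) k (f (a + c)) = _
    rw [map_add, map_add]
  · exact (map_eq_zero (algebraMap (ZMod q) k)).1 h0

omit [Finite Γ] [Fact p.Prime] in
theorem exists_functional {B : Type*} [CommGroup B] {q : ℕ} [Fact q.Prime]
    (hq : ∀ b : B, b ^ q = 1) (b : B) (hb : b ≠ 1) (k : Type*) [Field k] [Algebra (ZMod q) k] :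
    ∃ f : B → k, (∀ a c, f (a * c) = f a + f c) ∧ f b ≠ 0 := by
  obtain ⟨f, hf, hf1⟩ := @exists_functional' (Additive B) _ q _ (AddCommGroup.zmodModule (fun x => by
    show Additive.ofMul ((Additive.toMul x) ^ q) = 0
    rw [hq]
    rfl)) (Additive.ofMul b) hb k _ _
  exact ⟨fun m => f (Additive.ofMul m), fun a c => hf _ _, hf1⟩

theorem exists_chi {q : ℕ} [Fact q.Prime] (k : Type*) [Field k] [Algebra (ZMod q) k]
    (N : Subgroup Γ) (hN1 : N ≠ ⊥)
    (hNab : ∀ a ∈ N, ∀ b ∈ N, a * b = b * a) (hq : ∀ n ∈ N, n ^ q = 1) :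
    ∃ φ : Chi k N, φ ≠ 0 := by
  let _ : CommGroup N :=
    { (inferInstance : Group N) with
      mul_comm := fun a b => Subtype.ext (hNab a a.2 b b.2) }
  obtain ⟨n, hn⟩ := Subgroup.ne_bot_iff_exists_ne_one.1 hN1
  obtain ⟨f, hf, hf1⟩ := exists_functional (B := N) (q := q)
    (fun b => Subtype.ext (by rw [Subgroup.coe_pow]; exact hq b b.2)) n hn k
  exact ⟨⟨f, hf⟩, fun h0 => hf1 (congrFun (congrArg Subtype.val h0) n)⟩

/-- some `[X, v]` centralises a minimal normal subgroup. -/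
theorem Grp.centralizes (h : Grp p X V) (N : Subgroup Γ) [hNn : N.Normal] (hNX : N ≤ X)
    (hN1 : N ≠ ⊥) (hNab : ∀ a ∈ N, ∀ b ∈ N, a * b = b * a)
    (hmin : ∀ M : Subgroup Γ, M.Normal → M < N → M = ⊥) {q : ℕ} [hqp : Fact q.Prime]
    (hq : ∀ n ∈ N, n ^ q = 1) :
    ∃ v ∈ V, v ≠ 1 ∧ ∀ l ∈ cX X v, ∀ n ∈ N, l * n = n * l := by
  let k := AlgebraicClosure (ZMod q)
  have hchar : CharP k q := inferInstance
  -- `q` divides the order of `X`
  have hqX : q ∣ Nat.card X := by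
    obtain ⟨a, ha⟩ := Subgroup.ne_bot_iff_exists_ne_one.1 hN1
    have h1 : (a : Γ) ≠ 1 := fun h => ha (Subtype.ext h)
    have h2 : orderOf (a : Γ) ∣ q := orderOf_dvd_of_pow_eq_one (hq a a.2)
    rcases (Nat.dvd_prime hqp.out).1 h2 with h3 | h3
    · exact absurd (orderOf_eq_one_iff.1 h3) h1
    · rw [← h3]
      exact Subgroup.orderOf_dvd_natCard X (hNX a.2)
  have hpk : (p : k) ≠ 0 := by
    intro h0
    rw [CharP.cast_eq_zero_iff k q] at h0
    rcases (Nat.dvd_prime (Fact.out : p.Prime)).1 h0 with h1 | h1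
    · exact hqp.out.one_lt.ne' h1
    · rw [h1] at hqX
      exact h.not_dvd hqX
  let inst1 : DistribMulAction Γ (Chi k N) := Chi.act k N
  have hact : ∀ (g : Γ) (φ : Chi k N) (n : N), (g • φ).1 n =
    φ.1 ⟨g⁻¹ * n * g, by simpa using hNn.conj_mem n n.2 g⁻¹⟩ := fun g φ n => rfl
  have inst2 : SMulCommClass Γ k (Chi k N) := ⟨fun g c φ => rfl⟩
  obtain ⟨φ₀, hφ₀⟩ := exists_chi (q := q) k N hN1 hNab hq
  have hnt : Nontrivial (Chi k N) := ⟨φ₀, 0, hφ₀⟩
  have hfd : FiniteDimensional k (Chi k N) := inferInstance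
  -- the kernel of a character
  have hker : ∀ φ : Chi k N, ∃ M : Subgroup Γ, M ≤ N ∧ ∀ n : N, (n : Γ) ∈ M ↔ φ.1 n = 0 := by
    intro φ
    refine ⟨{ carrier := {n | ∃ hn : n ∈ N, φ.1 ⟨n, hn⟩ = 0}
              one_mem' := ⟨N.one_mem, chi_one φ⟩
              mul_mem' := ?_
              inv_mem' := ?_ }, fun n hn => hn.1, fun n => ⟨fun hn => hn.2, fun hn => ⟨n.2, hn⟩⟩⟩
    · rintro a b ⟨ha, ha2⟩ ⟨hb, hb2⟩
      refine ⟨mul_mem ha hb, ?_⟩
      have h1 := chi_mul φ ⟨a, ha⟩ ⟨b, hb⟩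
      rw [ha2, hb2, add_zero] at h1
      exact h1
    · rintro a ⟨ha, ha2⟩
      refine ⟨inv_mem ha, ?_⟩
      have h1 := chi_mul φ ⟨a, ha⟩ ⟨a⁻¹, inv_mem ha⟩
      have h2 : (⟨a, ha⟩ : N) * ⟨a⁻¹, inv_mem ha⟩ = 1 := Subtype.ext (mul_inv_cancel a)
      rw [h2, chi_one φ, ha2, zero_add] at h1
      exact h1.symm
  have hfix : ∀ φ : Chi k N, (∀ v ∈ V, v • φ = φ) → φ = 0 := by
    intro φ hφ
    obtain ⟨M, hMN, hM⟩ := hker φ
    have hinv : ∀ v ∈ V, ∀ n : N, φ.1 ⟨v * n * v⁻¹, hNn.conj_mem n n.2 v⟩ = φ.1 n := by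
      intro v hv n
      have h1 := congrFun (congrArg Subtype.val (hφ v⁻¹ (inv_mem hv))) n
      rw [hact] at h1
      rw [← h1]
      refine congrArg φ.1 (Subtype.ext ?_)
      show v * n * v⁻¹ = v⁻¹⁻¹ * n * v⁻¹
      rw [inv_inv]
    apply Subtype.ext
    funext n
    show φ.1 n = 0
    obtain ⟨r, hr, hrfix⟩ := exists_fixed_coset (p := p) V h.exp M (by
        intro t ht r hr
        have hrN := hMN hr
        have h1 := (hM ⟨r, hrN⟩).1 hr
        rw [← hinv t ht] at h1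
        exact (hM ⟨t * r * t⁻¹, hNn.conj_mem r hrN t⟩).2 h1)
      (fun hd => h.not_dvd (hd.trans (Subgroup.card_dvd_of_le (hMN.trans hNX)))) (n : Γ) (by
        intro t ht
        have h2 := (hM (n⁻¹ * ⟨t * n * t⁻¹, hNn.conj_mem n n.2 t⟩)).2 (by
          rw [chi_mul φ, hinv t ht, ← chi_mul φ, inv_mul_cancel, chi_one φ])
        exact h2)
    have hrN := hMN hr
    have h1 := h.cent _ (mul_mem (hNX n.2) (hNX hrN)) hrfix
    have h2 : n * ⟨r, hrN⟩ = 1 := Subtype.ext h1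
    have h3 := chi_mul φ n ⟨r, hrN⟩
    rw [h2, chi_one φ, (hM ⟨r, hrN⟩).1 hr, add_zero] at h3
    exact h3.symm
  obtain ⟨v, hv, hv1, φ, hφ0, hφ⟩ := h.exists_vector (k := k) (E := Chi k N) (q := q) hpk hfix
  refine ⟨v, hv, hv1, ?_⟩
  have hLn := h.cX_normal v hv
  have hLfix : ∀ l ∈ cX X v, l • φ = φ := by
    have h1 : cX X v ≤ MulAction.stabilizer Γ φ := by
      rw [cX, closure_le]
      rintro _ ⟨x, hx, rfl⟩
      exact hφ x hx
    exact fun l hl => h1 hl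
  have hle : ⁅N, cX X v⁆ ≤ N := Subgroup.commutator_le_left _ _
  have hbot : ⁅N, cX X v⁆ = ⊥ := by
    by_contra hne
    have heq : ⁅N, cX X v⁆ = N := by
      by_contra hne2
      exact hne (hmin _ inferInstance (lt_of_le_of_ne hle hne2))
    obtain ⟨M, hMN, hM⟩ := hker φ
    have h1 : ⁅N, cX X v⁆ ≤ M := by
      rw [commutator_le]
      intro n hn l hl
      have h2 := congrFun (congrArg Subtype.val (hLfix l⁻¹ (inv_mem hl))) (⟨n, hn⟩ : N)⁻¹
      rw [hact] at h2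
      have h3 := (hM ((⟨n, hn⟩ : N) * ⟨l * n⁻¹ * l⁻¹, hNn.conj_mem _ (inv_mem hn) l⟩)).2 (by
        rw [chi_mul φ]
        have h4 : (⟨l * n⁻¹ * l⁻¹, hNn.conj_mem _ (inv_mem hn) l⟩ : N) =
          ⟨l⁻¹⁻¹ * ((⟨n, hn⟩ : N)⁻¹ : N) * l⁻¹, by simpa using hNn.conj_mem _ (inv_mem hn) l⟩ := by
          ext
          simp
        rw [h4, h2, ← chi_mul φ, mul_inv_cancel, chi_one φ])
      have h5 : ((((⟨n, hn⟩ : N) * ⟨l * n⁻¹ * l⁻¹, hNn.conj_mem _ (inv_mem hn) l⟩) : N) : Γ) =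
        ⁅n, l⁆ := by
        rw [commutatorElement_def]
        show n * (l * n⁻¹ * l⁻¹) = n * l * n⁻¹ * l⁻¹
        group
      rwa [h5] at h3
    rw [heq] at h1
    apply hφ0
    apply Subtype.ext
    funext n
    exact (hM n).1 (h1 n.2)
  rw [commutator_eq_bot_iff_le_centralizer] at hbot
  intro l hl n hn
  exact mem_centralizer_iff.1 (hbot hn) l hl

/-- existence of a suitable minimal normal subgroup. -/
theorem Grp.exists_minimal (h : Grp p X V) (hX1 : X ≠ ⊥) :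
    ∃ N : Subgroup Γ, N.Normal ∧ N ≤ X ∧ N ≠ ⊥ ∧ (∀ a ∈ N, ∀ b ∈ N, a * b = b * a) ∧
      (∀ M : Subgroup Γ, M.Normal → M < N → M = ⊥) ∧ ∃ q : ℕ, q.Prime ∧ ∀ n ∈ N, n ^ q = 1 := by
  have hX := h.normal
  obtain ⟨D, hDn, hD1, hDX, hDc⟩ := exists_chief X ⊥ h.sol (bot_lt_iff_ne_bot.2 hX1)
  obtain ⟨N, hN, hmin⟩ := (wellFounded_lt (α := Subgroup Γ)).has_min
    {N : Subgroup Γ | N.Normal ∧ N ≠ ⊥ ∧ N ≤ D} ⟨D, hDn, bot_lt_iff_ne_bot.1 hD1, le_rfl⟩
  obtain ⟨hNn, hN1, hND⟩ := hN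
  have hNab : ∀ a ∈ N, ∀ b ∈ N, a * b = b * a := by
    intro a ha b hb
    have h1 := hDc (commutator_mem_commutator (hND ha) (hND hb))
    rw [Subgroup.mem_bot, commutatorElement_def, mul_inv_eq_one, mul_inv_eq_iff_eq_mul] at h1
    exact h1
  have hmin' : ∀ M : Subgroup Γ, M.Normal → M < N → M = ⊥ := by
    intro M hM hMN
    by_contra hne
    exact hmin M ⟨hM, hne, hMN.le.trans hND⟩ hMN
  refine ⟨N, hNn, hND.trans hDX, hN1, hNab, hmin', ?_⟩
  have hcard : Nat.card N ≠ 1 := fun h1 => hN1 (Subgroup.eq_bot_of_card_eq N h1)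
  obtain ⟨q, hq, hqd⟩ := Nat.exists_prime_and_dvd hcard
  refine ⟨q, hq, ?_⟩
  have : Fact q.Prime := ⟨hq⟩
  obtain ⟨x, hx⟩ := exists_prime_orderOf_dvd_card' q hqd
  let M : Subgroup Γ :=
    { carrier := {n | n ∈ N ∧ n ^ q = 1}
      one_mem' := ⟨N.one_mem, one_pow q⟩
      mul_mem' := by
        rintro a b ⟨ha, ha2⟩ ⟨hb, hb2⟩
        refine ⟨mul_mem ha hb, ?_⟩
        rw [(show Commute a b from hNab a ha b hb).mul_pow, ha2, hb2, one_mul]
      inv_mem' := by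
        rintro a ⟨ha, ha2⟩
        exact ⟨inv_mem ha, by rw [inv_pow, ha2, inv_one]⟩ }
  have hMn : M.Normal := ⟨fun n hn g => ⟨hNn.conj_mem n hn.1 g, by
    rw [conj_pow, hn.2]
    group⟩⟩
  have hMN : M ≤ N := fun n hn => hn.1
  have hM : M = N := by
    by_contra hne
    have h1 := hmin' M hMn (lt_of_le_of_ne hMN hne)
    have h2 : (x : Γ) ∈ M := ⟨x.2, by
      have h3 : x ^ q = 1 := by rw [← hx]; exact pow_orderOf_eq_one x
      exact congrArg Subtype.val h3⟩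
    rw [h1, Subgroup.mem_bot] at h2
    have h3 : x = 1 := Subtype.ext h2
    rw [h3, orderOf_one] at hx
    exact hq.one_lt.ne hx
  intro n hn
  rw [← hM] at hn
  exact hn.2

end

theorem nilpotent_aux {p : ℕ} [Fact p.Prime] (n : ℕ) :
    ∀ {Γ : Type*} [Group Γ] [Finite Γ] (X V : Subgroup Γ), Nat.card Γ ≤ n → Grp p X V →
      ∀ H : Subgroup Γ, H ≤ X → (∀ v ∈ V, v ≠ 1 → H ≤ cX X v) → Group.IsNilpotent H := by
  induction n with
  | zero =>
    intro Γ _ _ X V hn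
    exact absurd hn (by have := Nat.card_pos (α := Γ); omega)
  | succ n ih =>
    intro Γ _ _ X V hn h H hHX hH
    by_cases hX1 : X = ⊥
    · have h1 : H = ⊥ := by rw [eq_bot_iff, ← hX1]; exact hHX
      rw [h1]
      infer_instance
    obtain ⟨N, hNn, hNX, hN1, hNab, hmin, q, hq, hqN⟩ := h.exists_minimal hX1
    have : Fact q.Prime := ⟨hq⟩
    obtain ⟨v, hv, hv1, hvc⟩ := h.centralizes N hNX hN1 hNab hmin (q := q) hqN
    have hcard : Nat.card (Γ ⧸ N) ≤ n := by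
      have h1 := Subgroup.card_eq_card_quotient_mul_card_subgroup N
      have h2 : 1 < Nat.card N := by
        rw [Subgroup.one_lt_card_iff_ne_bot]
        exact hN1
      have h3 : 0 < Nat.card (Γ ⧸ N) := Nat.card_pos
      nlinarith
    have hmap := h.map (QuotientGroup.mk' N) (QuotientGroup.mk'_surjective N)
    have h4 := ih (X.map (QuotientGroup.mk' N)) (V.map (QuotientGroup.mk' N)) hcard hmap
      (H.map (QuotientGroup.mk' N)) (Subgroup.map_mono hHX) (by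
        rintro _ ⟨w, hw, rfl⟩ hw1
        rw [← cX_map]
        exact Subgroup.map_mono (hH w hw (fun h5 => hw1 (by rw [h5, map_one]))))
    have h6 : ((QuotientGroup.mk' N).subgroupMap H).ker ≤ center H := by
      intro x hx
      rw [MonoidHom.mem_ker] at hx
      have h7 : (QuotientGroup.mk' N) (x : Γ) = 1 := congrArg Subtype.val hx
      have h8 : (x : Γ) ∈ N := by
        rwa [← MonoidHom.mem_ker, QuotientGroup.ker_mk'] at h7
      rw [mem_center_iff]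
      intro y
      exact Subtype.ext (hvc y (hH v hv hv1 y.2) x h8)
    exact Subgroup.isNilpotent_of_ker_le_center _ h6

end Pool.Agent.Helper6K1.RegAut
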