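import Pool.Agent.Helper6K1.RegAut.Quot

set_option autoImplicit false

/-! Regular orbits on transitive sets of soluble groups. -/

namespace Pool.Agent.Helper6K1.RegAut

open Subgroup

variable {Γ Ω : Type*} [Group Γ] [MulAction Γ Ω]

/-- there is a point in the `X`-orbit of `ω₀` such that the elements of `W` that stabilise its
`Y`-orbit stabilise all `Y`-orbits in the `X`-orbit of `ω₀`. -/
def Prp (X W : Subgroup Γ) (ω₀ : Ω) (Y : Subgroup Γ) : Prop :=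
  ∃ x ∈ X, ∀ w ∈ W, (∃ u ∈ Y, w • x • ω₀ = u • x • ω₀) → ∀ z ∈ X, ∃ u ∈ Y, w • z • ω₀ = u • z • ω₀

theorem prp_self (X W : Subgroup Γ) [hX : X.Normal] (ω₀ : Ω) : Prp X W ω₀ X := by
  refine ⟨1, X.one_mem, fun w _ h z hz => ?_⟩
  obtain ⟨u, hu, hwu⟩ := h
  rw [one_smul] at hwu
  refine ⟨(w * z * w⁻¹) * u * z⁻¹, mul_mem (mul_mem (hX.conj_mem z hz w) hu) (inv_mem hz), ?_⟩
  have h1 : w • z • ω₀ = (w * z * w⁻¹) • w • ω₀ := by
    simp only [smul_smul]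
    congr 1
    group
  rw [h1, hwu]
  simp only [smul_smul]
  congr 1
  group

theorem prp_step [Finite Γ] {p : ℕ} [Fact p.Prime] (X W Y : Subgroup Γ) [hX : X.Normal]
    [hYn : Y.Normal] (hYX : Y ≤ X)
    (hWc : ∀ s ∈ W, ∀ t ∈ W, s * t = t * s) (hWp : ∀ t ∈ W, t ^ p = 1)
    (hXp : ¬ p ∣ Nat.card X) (ω₀ : Ω) (h : Prp X W ω₀ Y) : Prp X W ω₀ ⁅Y, Y⁆ := by
  obtain ⟨x, hx, hprop⟩ := h
  have hYp : ¬ p ∣ Nat.card Y := fun hd => hXp (hd.trans (Subgroup.card_dvd_of_le hYX))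
  -- the stabilizer of the block
  let W1 : Subgroup Γ :=
    { carrier := {w | w ∈ W ∧ ∃ u ∈ Y, w • x • ω₀ = u • x • ω₀}
      one_mem' := ⟨W.one_mem, 1, Y.one_mem, rfl⟩
      mul_mem' := by
        rintro a b ⟨ha, u, hu, hau⟩ ⟨hb, v, hv, hbv⟩
        refine ⟨W.mul_mem ha hb, (a * v * a⁻¹) * u, mul_mem (hYn.conj_mem v hv a) hu, ?_⟩
        rw [mul_smul, hbv]
        have h1 : a • v • x • ω₀ = (a * v * a⁻¹) • a • x • ω₀ := by
          simp only [smul_smul]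
          congr 1
          group
        rw [h1, hau]
        simp only [smul_smul]
        congr 1
        group
      inv_mem' := by
        rintro a ⟨ha, u, hu, hau⟩
        refine ⟨W.inv_mem ha, a⁻¹ * u⁻¹ * a⁻¹⁻¹, hYn.conj_mem _ (inv_mem hu) _, ?_⟩
        have h1 : x • ω₀ = u⁻¹ • a • x • ω₀ := by rw [hau, inv_smul_smul]
        conv_lhs => rw [h1]
        simp only [smul_smul]
        congr 1
        group }
  have hW1W : W1 ≤ W := fun w hw => hw.1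
  -- a fixed point of `W1` in the block
  obtain ⟨ω1, ⟨u1, hu1, hω1⟩, hfix1⟩ : ∃ ω1 : Ω, (∃ u ∈ Y, ω1 = u • x • ω₀) ∧ ∀ w ∈ W1, w • ω1 = ω1 := by
    have hpT : IsPGroup p W1 := isPGroup_of_pow fun t => Subtype.ext (by
      rw [Subgroup.coe_pow]; exact hWp t (hW1W t.2))
    obtain ⟨a, ha, hfix⟩ := exists_fixed (T := W1) (p := p) hpT (MulAction.orbit Y (x • ω₀)) (by
      rintro ⟨t, ht⟩ a ⟨⟨u, hu⟩, rfl⟩
      obtain ⟨-, v, hv, htv⟩ := ht
      refine ⟨⟨(t * u * t⁻¹) * v, mul_mem (hYn.conj_mem u hu t) hv⟩, ?_⟩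
      show ((t * u * t⁻¹) * v) • x • ω₀ = t • u • x • ω₀
      rw [mul_smul, ← htv]
      simp only [smul_smul]
      congr 1
      group) (by
      have h1 := MulAction.index_stabilizer Y (x • ω₀)
      have h2 : Nat.card (MulAction.orbit Y (x • ω₀)) = (MulAction.stabilizer Y (x • ω₀)).index := h1.symm
      rw [h2]
      exact fun hd => hYp (hd.trans (Subgroup.index_dvd_card _)))
    obtain ⟨⟨u, hu⟩, rfl⟩ := ha
    exact ⟨u • x • ω₀, ⟨u, hu, rfl⟩, fun w hw => hfix ⟨w, hw⟩⟩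
  have hx1 : u1 * x ∈ X := mul_mem (hYX hu1) hx
  have hω1' : ω1 = (u1 * x) • ω₀ := by rw [hω1, mul_smul]
  have hfix1' : ∀ w ∈ W1, w⁻¹ • ω1 = ω1 := fun w hw => hfix1 _ (inv_mem hw)
  let St : Subgroup Γ := MulAction.stabilizer Γ ω1
  have hSt : ∀ g, g ∈ St ↔ g • ω1 = ω1 := fun g => Iff.rfl
  let Q : Subgroup Γ := ⁅Y, Y⁆ ⊔ (Y ⊓ St)
  have hQmem : ∀ q, q ∈ Q ↔ ∃ c ∈ ⁅Y, Y⁆, ∃ s ∈ Y ⊓ St, c * s = q := fun q => mem_sup_of_normal_left
  have hCY : ⁅Y, Y⁆ ≤ Y := commutator_le_left Y Y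
  have hStconj : ∀ t ∈ W1, ∀ s, s • ω1 = ω1 → (t * s * t⁻¹) • ω1 = ω1 := by
    intro t ht s hs
    rw [mul_smul, mul_smul, hfix1' t ht, hs, hfix1 t ht]
  have hsec : Section Y Q W1 :=
    { le := sup_le hCY inf_le_left
      comm := fun a ha b hb => (le_sup_left : ⁅Y, Y⁆ ≤ Q) (commutator_mem_commutator ha hb)
      normY := fun t _ y hy => hYn.conj_mem y hy t
      normQ := by
        intro t ht q hq
        obtain ⟨c, hc, s, ⟨hsY, hs⟩, rfl⟩ := (hQmem q).1 hq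
        rw [hQmem]
        refine ⟨t * c * t⁻¹, (inferInstance : (⁅Y, Y⁆).Normal).conj_mem c hc t, t * s * t⁻¹,
          ⟨hYn.conj_mem s hsY t, hStconj t ht s hs⟩, by group⟩ }
  obtain ⟨y, hy, hreg⟩ := exists_regular_section (p := p) hsec
    (fun s hs t ht => hWc s (hW1W hs) t (hW1W ht)) (fun t ht => hWp t (hW1W ht)) hYp
  refine ⟨y * (u1 * x), mul_mem (hYX hy) hx1, fun w hw hwu z hz => ?_⟩
  obtain ⟨u, hu, hwu⟩ := hwu
  have hω2 : (y * (u1 * x)) • ω₀ = y • ω1 := by rw [mul_smul, hω1']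
  rw [hω2] at hwu
  -- `w` is in `W1`
  have hwW1 : w ∈ W1 := by
    refine ⟨hw, (w * (y * u1) * w⁻¹)⁻¹ * u * (y * u1), ?_, ?_⟩
    · exact mul_mem (mul_mem (inv_mem (hYn.conj_mem _ (mul_mem hy hu1) w)) (hCY hu)) (mul_mem hy hu1)
    · have h1 : w • y • ω1 = (w * (y * u1) * w⁻¹) • w • x • ω₀ := by
        rw [hω1]
        simp only [smul_smul]
        congr 1
        group
      have h2 : u • y • ω1 = (u * (y * u1)) • x • ω₀ := by
        rw [hω1]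
        simp only [smul_smul]
        congr 1
        group
      rw [h1, h2] at hwu
      have h3 := congrArg (fun a => (w * (y * u1) * w⁻¹)⁻¹ • a) hwu
      simp only [inv_smul_smul] at h3
      rw [h3]
      simp only [smul_smul]
      congr 1
      simp only [mul_assoc]
  have hwQ : y⁻¹ * (w * y * w⁻¹) ∈ Q := by
    rw [hQmem]
    refine ⟨y⁻¹ * u * y⁻¹⁻¹, (inferInstance : (⁅Y, Y⁆).Normal).conj_mem u hu y⁻¹,
      y⁻¹ * u⁻¹ * (w * y * w⁻¹), Subgroup.mem_inf.2 ⟨?_, ?_⟩, by group⟩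
    · exact mul_mem (mul_mem (inv_mem hy) (inv_mem (hCY hu))) (hYn.conj_mem y hy w)
    · show (y⁻¹ * u⁻¹ * (w * y * w⁻¹)) • ω1 = ω1
      have h1 : (w * y * w⁻¹) • ω1 = u • y • ω1 := by
        rw [mul_smul, mul_smul, hfix1' w hwW1, hwu]
      rw [mul_smul, h1]
      simp only [smul_smul]
      have : y⁻¹ * u⁻¹ * (u * y) = 1 := by group
      rw [this, one_smul]
  have hall := hreg w hwW1 hwQ
  -- an element `x'` commuting with `W1` and mapping `ω1` into the `Y`-orbit of `z • ω₀`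
  let R : Subgroup Γ := Y ⊔ (X ⊓ St)
  have hRmem : ∀ q, q ∈ R ↔ ∃ c ∈ Y, ∃ s ∈ X ⊓ St, c * s = q := fun q => mem_sup_of_normal_left
  have hRX : R ≤ X := sup_le hYX inf_le_left
  obtain ⟨a0, ha0X, ha0⟩ : ∃ a0 ∈ X, a0 • ω1 = z • ω₀ := by
    refine ⟨z * (u1 * x)⁻¹, mul_mem hz (inv_mem hx1), ?_⟩
    rw [hω1', smul_smul]
    congr 1
    group
  obtain ⟨q, hq, hx'⟩ := exists_fixed_coset (p := p) W1 (fun t ht => hWp t (hW1W ht)) R (by
    intro t ht q hq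
    obtain ⟨c, hc, s, ⟨hsX, hs⟩, rfl⟩ := (hRmem q).1 hq
    rw [hRmem]
    exact ⟨t * c * t⁻¹, hYn.conj_mem c hc t, t * s * t⁻¹,
      ⟨hX.conj_mem s hsX t, hStconj t ht s hs⟩, by group⟩)
    (fun hd => hXp (hd.trans (Subgroup.card_dvd_of_le hRX))) a0 (by
    intro t ht
    obtain ⟨v, hv, htv⟩ := hprop t ht.1 ht.2 z hz
    rw [hRmem]
    refine ⟨a0⁻¹ * v * a0⁻¹⁻¹, hYn.conj_mem v hv a0⁻¹, a0⁻¹ * v⁻¹ * (t * a0 * t⁻¹),
      Subgroup.mem_inf.2 ⟨?_, ?_⟩, by group⟩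
    · exact mul_mem (mul_mem (inv_mem ha0X) (inv_mem (hYX hv))) (hX.conj_mem a0 ha0X t)
    · show (a0⁻¹ * v⁻¹ * (t * a0 * t⁻¹)) • ω1 = ω1
      have h1 : (t * a0 * t⁻¹) • ω1 = v • a0 • ω1 := by
        rw [mul_smul, mul_smul, hfix1' t ht, ha0, htv]
      rw [mul_smul, h1]
      simp only [smul_smul]
      have : a0⁻¹ * v⁻¹ * (v * a0) = 1 := by group
      rw [this, one_smul])
  obtain ⟨y', hy', s, ⟨hsX, hs⟩, rfl⟩ := (hRmem q).1 hq
  obtain ⟨x', hx'def⟩ : ∃ x', x' = a0 * (y' * s) := ⟨_, rfl⟩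
  rw [← hx'def] at hx'
  have hwx' : w * x' = x' * w := by
    have := hx' w hwW1
    exact mul_inv_eq_iff_eq_mul.1 this
  have hs' : s • ω1 = ω1 := hs
  obtain ⟨v, hv, hz1⟩ : ∃ v ∈ Y, z • ω₀ = v • x' • ω1 := by
    refine ⟨(a0 * y' * a0⁻¹)⁻¹, inv_mem (hYn.conj_mem y' hy' a0), ?_⟩
    have h1 : x' • ω1 = (a0 * y' * a0⁻¹) • a0 • ω1 := by
      rw [hx'def, mul_smul, mul_smul, hs']
      simp only [smul_smul]
      congr 1
      group
    rw [h1, ha0, inv_smul_smul]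
  obtain ⟨z', hz'Y, hz2⟩ : ∃ z' ∈ Y, z • ω₀ = x' • z' • ω1 := by
    refine ⟨x'⁻¹ * v * x'⁻¹⁻¹, hYn.conj_mem v hv x'⁻¹, ?_⟩
    rw [hz1]
    simp only [smul_smul]
    congr 1
    group
  obtain ⟨c, hc, s', ⟨hs'Y, hs's⟩, hcs⟩ := (hQmem _).1 (hall z' hz'Y)
  have hs'' : s' • ω1 = ω1 := hs's
  refine ⟨(x' * z') * c * (x' * z')⁻¹, (inferInstance : (⁅Y, Y⁆).Normal).conj_mem c hc _, ?_⟩
  rw [hz2]
  have h1 : w • x' • z' • ω1 = x' • (w * z' * w⁻¹) • ω1 := by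
    rw [mul_smul (w * z') w⁻¹, hfix1' w hwW1]
    simp only [smul_smul]
    congr 1
    rw [← mul_assoc, hwx', mul_assoc]
  have h2 : w * z' * w⁻¹ = z' * (c * s') := by
    rw [hcs]
    group
  rw [h1, h2, mul_smul, mul_smul, hs'']
  simp only [smul_smul]
  congr 1
  group

/-- the derived series of `X` as a series of subgroups of `Γ`. -/
def dser (X : Subgroup Γ) : ℕ → Subgroup Γ
  | 0 => X
  | n + 1 => ⁅dser X n, dser X n⁆

theorem dser_eq (X : Subgroup Γ) (n : ℕ) : dser X n = (derivedSeries X n).map X.subtype := by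
  induction n with
  | zero =>
    rw [dser, derivedSeries_zero, ← MonoidHom.range_eq_map, range_subtype]
  | succ n ih => rw [dser, ih, derivedSeries_succ, map_commutator]

theorem dser_normal (X : Subgroup Γ) [hX : X.Normal] (n : ℕ) : (dser X n).Normal := by
  induction n with
  | zero => exact hX
  | succ n ih => exact commutator_normal _ _

theorem dser_le (X : Subgroup Γ) (n : ℕ) : dser X n ≤ X := by
  induction n with
  | zero => exact le_rfl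
  | succ n ih => 
    rw [dser, commutator_le]
    intro a ha b hb
    exact mul_mem (mul_mem (mul_mem (ih ha) (ih hb)) (inv_mem (ih ha))) (inv_mem (ih hb))

/-- A group `W` of exponent `p` which normalises the soluble `p'`-group `X`: on every `X`-orbit there
is a point such that the elements of `W` fixing it fix the whole orbit pointwise. -/
theorem exists_regular_orbit [Finite Γ] {p : ℕ} [Fact p.Prime] (X W : Subgroup Γ) [hX : X.Normal]
    (hsol : Group.IsSolvable X)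
    (hWc : ∀ s ∈ W, ∀ t ∈ W, s * t = t * s) (hWp : ∀ t ∈ W, t ^ p = 1)
    (hXp : ¬ p ∣ Nat.card X) (ω₀ : Ω) :
    ∃ x ∈ X, ∀ w ∈ W, w • x • ω₀ = x • ω₀ → ∀ z ∈ X, w • z • ω₀ = z • ω₀ := by
  have h : ∀ n, Prp X W ω₀ (dser X n) := by
    intro n
    induction n with
    | zero => exact prp_self X W ω₀
    | succ n ih =>
      have := dser_normal X n
      exact prp_step (p := p) X W (dser X n) (dser_le X n) hWc hWp hXp ω₀ ih
  obtain ⟨n, hn⟩ := hsol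
  obtain ⟨x, hx, hprop⟩ := h n
  have hbot : dser X n = ⊥ := by rw [dser_eq, hn, Subgroup.map_bot]
  rw [hbot] at hprop
  refine ⟨x, hx, fun w hw hfix z hz => ?_⟩
  obtain ⟨u, hu, hwu⟩ := hprop w hw ⟨1, Subgroup.one_mem _, by rw [hfix, one_smul]⟩ z hz
  rw [Subgroup.mem_bot] at hu
  rw [hwu, hu, one_smul]

end Pool.Agent.Helper6K1.RegAut
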