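import Pool.Agent.Helper6K1.RegAut.Hyper

set_option autoImplicit false

/-! The action by conjugation on abelian sections. -/

namespace Pool.Agent.Helper6K1.RegAut

open Subgroup

variable {Γ : Type*} [Group Γ]

/-- data for an abelian section `Y / Q` normalised by `T`. -/
structure Section (Y Q T : Subgroup Γ) : Prop where
  le : Q ≤ Y
  comm : ∀ a ∈ Y, ∀ b ∈ Y, a * b * a⁻¹ * b⁻¹ ∈ Q
  normY : ∀ t ∈ T, ∀ y ∈ Y, t * y * t⁻¹ ∈ Y
  normQ : ∀ t ∈ T, ∀ q ∈ Q, t * q * t⁻¹ ∈ Q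

variable {Y Q T : Subgroup Γ}

theorem Section.normal (h : Section Y Q T) : (Q.subgroupOf Y).Normal := by
  refine ⟨fun n hn g => ?_⟩
  rw [mem_subgroupOf] at hn ⊢
  have h1 := h.comm g g.2 n n.2
  have h2 := Q.mul_mem h1 hn
  simpa using h2

/-- conjugation by `t` on `Y`. -/
def conjHom (Y : Subgroup Γ) (t : Γ) (h : ∀ y ∈ Y, t * y * t⁻¹ ∈ Y) : Y →* Y where
  toFun y := ⟨t * y * t⁻¹, h y y.2⟩
  map_one' := by ext; simp
  map_mul' a b := by ext; simp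

/-- the abelian section as a type. -/
def Sec (_h : Section Y Q T) : Type _ := Y ⧸ Q.subgroupOf Y

namespace Sec

variable (h : Section Y Q T)

instance : Group (Sec h) :=
  haveI := h.normal
  inferInstanceAs (Group (Y ⧸ Q.subgroupOf Y))

/-- the projection. -/
def mk (h : Section Y Q T) : Y →* Sec h :=
  haveI := h.normal
  QuotientGroup.mk' (Q.subgroupOf Y)

theorem mk_surj : Function.Surjective (mk h) := by
  have := h.normal
  exact QuotientGroup.mk'_surjective _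

theorem mk_eq_one (y : Y) : mk h y = 1 ↔ (y : Γ) ∈ Q := by
  have := h.normal
  exact (QuotientGroup.eq_one_iff y).trans mem_subgroupOf

theorem mk_eq (y z : Y) : mk h y = mk h z ↔ (z : Γ)⁻¹ * y ∈ Q := by
  have h1 := mk_eq_one h (z⁻¹ * y)
  rw [map_mul, map_inv, inv_mul_eq_one] at h1
  exact eq_comm.trans h1

instance : CommGroup (Sec h) :=
  { (inferInstance : Group (Sec h)) with
    mul_comm := fun a b => by
      obtain ⟨a, rfl⟩ := mk_surj h a
      obtain ⟨b, rfl⟩ := mk_surj h b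
      rw [← map_mul, ← map_mul, mk_eq]
      have h1 := h.comm ((a : Γ)⁻¹) (inv_mem a.2) ((b : Γ)⁻¹) (inv_mem b.2)
      simpa [mul_assoc] using h1 }

instance [Finite Γ] : Finite (Sec h) := Finite.of_surjective _ (mk_surj h)

/-- the action of `T`. -/
def act (t : T) : Sec h →* Sec h :=
  haveI := h.normal
  QuotientGroup.map _ _ (conjHom Y t (h.normY t t.2)) (fun y hy => by
    rw [mem_comap, mem_subgroupOf]
    exact h.normQ t t.2 y (mem_subgroupOf.1 hy))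

theorem act_mk (t : T) (y : Y) : act h t (mk h y) = mk h (conjHom Y t (h.normY t t.2) y) := rfl

instance : MulDistribMulAction T (Sec h) where
  smul t := act h t
  one_smul b := by
    obtain ⟨y, rfl⟩ := mk_surj h b
    show act h 1 (mk h y) = mk h y
    rw [act_mk]
    congr 1
    ext
    simp [conjHom]
  mul_smul s t b := by
    obtain ⟨y, rfl⟩ := mk_surj h b
    show act h (s * t) (mk h y) = act h s (act h t (mk h y))
    rw [act_mk, act_mk, act_mk]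
    congr 1
    ext
    simp [conjHom, mul_assoc]
  smul_mul t a b := map_mul (act h t) a b
  smul_one t := map_one (act h t)

theorem smul_mk (t : T) (y : Y) : t • mk h y = mk h (conjHom Y t (h.normY t t.2) y) := rfl

theorem smul_mk_eq (t : T) (y : Y) : t • mk h y = mk h y ↔ (y : Γ)⁻¹ * (t * y * (t : Γ)⁻¹) ∈ Q := by
  rw [smul_mk, mk_eq]
  rfl

theorem card_dvd [Finite Γ] : Nat.card (Sec h) ∣ Nat.card Y := by
  have := h.normal
  exact Subgroup.card_quotient_dvd_card (Q.subgroupOf Y)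

end Sec

theorem exists_regular_section [Finite Γ] {p : ℕ} [Fact p.Prime] (h : Section Y Q T)
    (hTc : ∀ s ∈ T, ∀ t ∈ T, s * t = t * s) (hTp : ∀ t ∈ T, t ^ p = 1)
    (hY : ¬ p ∣ Nat.card Y) :
    ∃ y ∈ Y, ∀ t ∈ T, y⁻¹ * (t * y * t⁻¹) ∈ Q → ∀ z ∈ Y, z⁻¹ * (t * z * t⁻¹) ∈ Q := by
  have hpT : IsPGroup p T := isPGroup_of_pow fun t => Subtype.ext (by
    rw [Subgroup.coe_pow]; exact hTp t t.2)
  obtain ⟨n, hn⟩ := (IsPGroup.iff_card).1 hpT
  have hco : (Nat.card T).Coprime (Nat.card (Sec h)) := by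
    rw [hn]
    refine Nat.Coprime.pow_left _ ((Nat.Prime.coprime_iff_not_dvd Fact.out).2 fun hd => hY ?_)
    exact hd.trans (Sec.card_dvd h)
  obtain ⟨b, hb⟩ := exists_regular (B := Sec h) (T := T)
    (fun s t => Subtype.ext (hTc s s.2 t t.2)) hco
  obtain ⟨y, rfl⟩ := Sec.mk_surj h b
  refine ⟨y, y.2, fun t ht hty z hz => ?_⟩
  have h1 := hb ⟨t, ht⟩ ((Sec.smul_mk_eq h ⟨t, ht⟩ y).2 hty) (Sec.mk h ⟨z, hz⟩)
  exact (Sec.smul_mk_eq h ⟨t, ht⟩ ⟨z, hz⟩).1 h1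

theorem exists_hyperplane_section [Finite Γ] {p : ℕ} [Fact p.Prime] (h : Section Y Q T)
    (hTc : ∀ s ∈ T, ∀ t ∈ T, s * t = t * s) (hTp : ∀ t ∈ T, t ^ p = 1)
    (hY : ¬ p ∣ Nat.card Y) (W : Subgroup Γ) (hWT : W ≤ T)
    (hW : ∃ w ∈ W, ∃ y ∈ Y, y⁻¹ * (w * y * w⁻¹) ∉ Q) :
    ∃ U : Subgroup Γ, U ≤ T ∧ ∃ w ∈ W, w ∉ U ∧ U ⊔ zpowers w = T ∧
      ∃ y ∈ Y, y ∉ Q ∧ ∀ u ∈ U, u * y * u⁻¹ = y := by
  have hB : ¬ p ∣ Nat.card (Sec h) := fun hd => hY (hd.trans (Sec.card_dvd h))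
  obtain ⟨U, w, hw, hwU, hsup, b, hb1, hb⟩ := exists_hyperplane (B := Sec h) (V := T)
    (fun s t => Subtype.ext (hTc s s.2 t t.2)) (p := p) (fun t => Subtype.ext (by
    rw [Subgroup.coe_pow]; exact hTp t t.2)) hB (W.subgroupOf T) (by
    obtain ⟨w, hw, y, hy, hwy⟩ := hW
    refine ⟨⟨w, hWT hw⟩, mem_subgroupOf.2 hw, Sec.mk h ⟨y, hy⟩, fun he => hwy ?_⟩
    exact (Sec.smul_mk_eq h ⟨w, hWT hw⟩ ⟨y, hy⟩).1 he)
  obtain ⟨y, rfl⟩ := Sec.mk_surj h b
  have hU : ∀ u ∈ U.map T.subtype, (y : Γ)⁻¹ * (u * y * u⁻¹) ∈ Q := by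
    rintro _ ⟨u, hu, rfl⟩
    exact (Sec.smul_mk_eq h u y).1 (hb u hu)
  have hUT : U.map T.subtype ≤ T := by
    rintro _ ⟨u, hu, rfl⟩
    exact u.2
  obtain ⟨q, hq, hfix⟩ := exists_fixed_coset (p := p) (U.map T.subtype) (fun t ht => hTp t (hUT ht)) Q
    (fun t ht => h.normQ t (hUT ht)) (fun hd => hY (hd.trans (Subgroup.card_dvd_of_le h.le)))
    (y : Γ) hU
  refine ⟨U.map T.subtype, hUT, w, mem_subgroupOf.1 hw, ?_, ?_, y * q, mul_mem y.2 (h.le hq), ?_, hfix⟩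
  · rintro ⟨u, hu, hue⟩
    have : u = w := Subtype.ext hue
    exact hwU (this ▸ hu)
  · have h1 := congrArg (Subgroup.map T.subtype) hsup
    rw [Subgroup.map_sup, MonoidHom.map_zpowers, ← MonoidHom.range_eq_map, range_subtype] at h1
    exact h1
  · intro hyq
    apply hb1
    rw [Sec.mk_eq_one]
    have := Q.mul_mem hyq (inv_mem hq)
    simpa using this

end Pool.Agent.Helper6K1.RegAut
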