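import Pool.Agent.Helper6K1.RegAut.CoreThree

set_option autoImplicit false

/-! Reduction to the faithful irreducible case. -/

namespace Pool.Agent.Helper6K1.RegAut

open Subgroup
open scoped commutatorElement

/-- the group-theoretic hypotheses. -/
structure Grp (p : ℕ) {Γ : Type*} [Group Γ] (X V : Subgroup Γ) : Prop where
  normal : X.Normal
  sol : Group.IsSolvable X
  comm : ∀ s ∈ V, ∀ t ∈ V, s * t = t * s
  exp : ∀ t ∈ V, t ^ p = 1
  sup : X ⊔ V = ⊤
  cent : ∀ x ∈ X, (∀ v ∈ V, v * x * v⁻¹ = x) → x = 1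

section

variable {Γ : Type*} [Group Γ] [Finite Γ] {p : ℕ} [Fact p.Prime] {X V : Subgroup Γ}

/-- `p` does not divide the order of `X`. -/
theorem Grp.not_dvd (h : Grp p X V) : ¬ p ∣ Nat.card X := by
  intro hd
  have hc : ¬ p ∣ Nat.card ({x : Γ | x ∈ X ∧ x ≠ 1} : Set Γ) := by
    intro hd2
    have h1 : Nat.card X = Nat.card ({x : Γ | x ∈ X ∧ x ≠ 1} : Set Γ) + 1 := by
      have h2 : (X : Set Γ) = insert 1 {x : Γ | x ∈ X ∧ x ≠ 1} := by
        ext x
        simp only [SetLike.mem_coe, Set.mem_insert_iff, Set.mem_ofPred_eq]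
        constructor
        · intro hx
          by_cases hx1 : x = 1
          · exact Or.inl hx1
          · exact Or.inr ⟨hx, hx1⟩
        · rintro (rfl | hx)
          · exact X.one_mem
          · exact hx.1
      have h3 := Set.ncard_insert_of_notMem (a := (1 : Γ)) (s := {x : Γ | x ∈ X ∧ x ≠ 1})
        (by simp) (Set.toFinite _)
      rw [← h2] at h3
      exact h3
    rw [h1] at hd
    have h2 := (Nat.dvd_add_right hd2).1 hd
    exact (Fact.out : p.Prime).one_lt.ne' (Nat.dvd_one.1 h2)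
  obtain ⟨a, ha, hfix⟩ := exists_fixed_conj V h.exp {x : Γ | x ∈ X ∧ x ≠ 1} (by
    intro t _ a ha
    refine ⟨h.normal.conj_mem a ha.1 t, fun h1 => ha.2 ?_⟩
    have h2 : a = t⁻¹ * (t * a * t⁻¹) * t := by group
    rw [h2, h1]
    group) hc
  exact ha.2 (h.cent a ha.1 hfix)

omit [Finite Γ] [Fact p.Prime] in
theorem Grp.exists_mul (h : Grp p X V) (g : Γ) : ∃ v ∈ V, ∃ x ∈ X, g = v * x := by
  have hX := h.normal
  have h1 : g ∈ V ⊔ X := by rw [sup_comm, h.sup]; exact Subgroup.mem_top g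
  rw [Subgroup.mem_sup_of_normal_right] at h1
  obtain ⟨v, hv, x, hx, hvx⟩ := h1
  exact ⟨v, hv, x, hx, hvx.symm⟩

/-- the hypotheses pass to quotients. -/
theorem Grp.map (h : Grp p X V) {Γ' : Type*} [Group Γ'] (φ : Γ →* Γ')
    (hφ : Function.Surjective φ) : Grp p (X.map φ) (V.map φ) := by
  have hX := h.normal
  refine ⟨Subgroup.Normal.map h.normal φ hφ, ?_, ?_, ?_, ?_, ?_⟩
  · have := h.sol
    exact Group.isSolvable_of_surjective (φ.subgroupMap_surjective X)
  · rintro _ ⟨s, hs, rfl⟩ _ ⟨t, ht, rfl⟩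
    rw [← map_mul, ← map_mul, h.comm s hs t ht]
  · rintro _ ⟨t, ht, rfl⟩
    rw [← map_pow, h.exp t ht, map_one]
  · rw [← Subgroup.map_sup, h.sup, Subgroup.map_top_of_surjective φ hφ]
  · rintro _ ⟨x, hx, rfl⟩ hfix
    obtain ⟨r, hr, hrfix⟩ := exists_fixed_coset (p := p) V h.exp (X ⊓ φ.ker) (by
        intro t _ r hr
        obtain ⟨hr1, hr2⟩ := Subgroup.mem_inf.1 hr
        exact Subgroup.mem_inf.2 ⟨hX.conj_mem r hr1 t,
          (MonoidHom.normal_ker φ).conj_mem r hr2 t⟩)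
      (fun hd => h.not_dvd (hd.trans (Subgroup.card_dvd_of_le inf_le_left))) x (by
        intro t ht
        refine Subgroup.mem_inf.2 ⟨mul_mem (inv_mem hx) (hX.conj_mem x hx t), ?_⟩
        rw [MonoidHom.mem_ker, map_mul, map_mul, map_mul, map_inv, map_inv]
        rw [hfix (φ t) ⟨t, ht, rfl⟩, inv_mul_cancel])
    obtain ⟨hr1, hr2⟩ := Subgroup.mem_inf.1 hr
    have h1 := h.cent _ (mul_mem hx hr1) hrfix
    have h2 := congrArg φ h1
    rw [map_mul, MonoidHom.mem_ker.1 hr2, mul_one, map_one] at h2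
    exact h2

end

section

variable {Γ : Type*} [Group Γ] [Finite Γ] {k : Type*} [Field k] {E : Type*} [AddCommGroup E]
  [Module k E] [DistribMulAction Γ E] [SMulCommClass Γ k E] {p : ℕ} [Fact p.Prime]
  {X V W : Subgroup Γ}

/-- **Main theorem**, irreducible case. -/
theorem Grp.core (h : Grp p X V) [IsAlgClosed k] [FiniteDimensional k E] [Nontrivial E]
    {q : ℕ} [Fact q.Prime] [CharP k q] (hpk : (p : k) ≠ 0)
    (irr : ∀ S : Submodule k E, (∀ g : Γ, ∀ e ∈ S, g • e ∈ S) → S = ⊥ ∨ S = ⊤)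
    (fix : ∀ e : E, (∀ v ∈ V, v • e = e) → e = 0) :
    ∃ v ∈ V, v ≠ 1 ∧ ∀ x ∈ X, ∀ e : E, (v * x * v⁻¹) • e = x • e := by
  let ρ : Γ →* (E ≃ₗ[k] E) := DistribMulAction.toModuleAut k E
  have hρ : ∀ (g : Γ) (e : E), (ρ.rangeRestrict g) • e = g • e := fun g e => rfl
  have hsurj := ρ.rangeRestrict_surjective
  have hfin : Finite ρ.range := Finite.of_surjective _ hsurj
  have h1 := h.map ρ.rangeRestrict hsurj
  have h2 : Hyp p k E (X.map ρ.rangeRestrict) (V.map ρ.rangeRestrict) :=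
    { normal := h1.normal
      sol := h1.sol
      comm := h1.comm
      exp := h1.exp
      sup := h1.sup
      cent := h1.cent
      faith := fun g hg => by
        apply Subtype.ext
        apply LinearEquiv.ext
        intro e
        exact hg e
      irr := fun S hS => irr S (fun g e he => hS (ρ.rangeRestrict g) e he)
      fix := fun e he => fix e (fun v hv => he _ ⟨v, hv, rfl⟩) }
  obtain ⟨w, ⟨v, hv, rfl⟩, hw1, hw⟩ := h2.core (q := q) hpk
  refine ⟨v, hv, fun h3 => hw1 (by rw [h3, map_one]), fun x hx e => ?_⟩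
  have h4 := hw _ ⟨x, hx, rfl⟩
  rw [← map_mul, ← map_inv, ← map_mul] at h4
  rw [← hρ, h4, hρ]

end

section

variable {Γ : Type*} [Group Γ] [Finite Γ] {k : Type*} [Field k] {E : Type*} [AddCommGroup E]
  [Module k E] [DistribMulAction Γ E] [SMulCommClass Γ k E] {p : ℕ} [Fact p.Prime]
  {X V W : Subgroup Γ}

/-- **Main theorem**, general module. -/
theorem Grp.exists_vector (h : Grp p X V) [IsAlgClosed k] [FiniteDimensional k E] [Nontrivial E]
    {q : ℕ} [Fact q.Prime] [CharP k q] (hpk : (p : k) ≠ 0)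
    (fix : ∀ e : E, (∀ v ∈ V, v • e = e) → e = 0) :
    ∃ v ∈ V, v ≠ 1 ∧ ∃ e : E, e ≠ 0 ∧ ∀ x ∈ X, (x⁻¹ * (v * x * v⁻¹)) • e = e := by
  obtain ⟨S, hS, hinv, hmin⟩ := exists_minimal_inv (k := k) (E := E) (Set.univ : Set Γ)
  have hinv' : ∀ g : Γ, ∀ e ∈ S, g • e ∈ S := fun g e he => hinv g (Set.mem_univ g) e he
  have hnt : Nontrivial S := (Submodule.nontrivial_iff_ne_bot).2 hS
  let inst1 : DistribMulAction Γ S :=
    { smul := fun g e => ⟨g • (e : E), hinv' g e e.2⟩
      one_smul := fun e => Subtype.ext (one_smul Γ (e : E))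
      mul_smul := fun a b e => Subtype.ext (mul_smul a b (e : E))
      smul_zero := fun a => Subtype.ext (smul_zero a)
      smul_add := fun a x y => Subtype.ext (smul_add a (x : E) (y : E)) }
  have hco : ∀ (g : Γ) (e : S), ((g • e : S) : E) = g • (e : E) := fun g e => rfl
  have inst2 : SMulCommClass Γ k S :=
    ⟨fun g c e => Subtype.ext (smul_comm g c (e : E))⟩
  obtain ⟨v, hv, hv1, hvx⟩ := h.core (k := k) (E := S) (q := q) hpk (by
    intro T hT
    rcases hmin (T.map S.subtype) (Submodule.map_subtype_le S T) (by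
      rintro g _ _ ⟨e, he, rfl⟩
      exact ⟨g • e, hT g e he, rfl⟩) with h0 | h0
    · left
      rw [eq_bot_iff]
      intro e he
      have h3 : (e : E) ∈ T.map S.subtype := ⟨e, he, rfl⟩
      rw [h0, Submodule.mem_bot] at h3
      rw [Submodule.mem_bot]
      exact Subtype.ext h3
    · right
      rw [eq_top_iff]
      intro e _
      have h3 : (e : E) ∈ T.map S.subtype := by rw [h0]; exact e.2
      obtain ⟨e', he', hee⟩ := h3
      have h4 : e' = e := Subtype.ext hee
      rwa [← h4])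
    (fun e he => Subtype.ext (fix e (fun v hv => congrArg Subtype.val (he v hv))))
  obtain ⟨e, he⟩ := exists_ne (0 : S)
  refine ⟨v, hv, hv1, (e : E), fun h0 => he (Subtype.ext h0), fun x hx => ?_⟩
  have h5 := congrArg Subtype.val (hvx x hx e)
  rw [hco, hco] at h5
  rw [mul_smul, h5, inv_smul_smul]

end

end Pool.Agent.Helper6K1.RegAut
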